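import Mathlib

/-!
Module ASY2 (about 120 lines): the parameters.  κ = ℓ^2, d = 1 + κ M0, N = M1 + M0, Q = 3 ℓ N (d + κ) (polynomial in ℓ of degree 3),
u = (M1/M0)^(d-1) and r^d decay like exp(-c ℓ^2), faster than every C^(-ℓ).
-/

set_option autoImplicit false

namespace Pool.Agent.H4.FQ

open Filter Topology

theorem asy2_tend (k : ℕ) (C ρ : ℝ) (hC : 0 < C) (h0 : 0 < ρ) (h1 : ρ < 1) :
    Tendsto (fun n : ℕ => (n : ℝ) ^ k * (C ^ n * ρ ^ (n ^ 2))) atTop (𝓝 0) := by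
  have hhalf : Tendsto (fun n : ℕ => (n : ℝ) ^ k * (1 / 2 : ℝ) ^ n) atTop (𝓝 0) :=
    tendsto_pow_const_mul_const_pow_of_abs_lt_one k (by rw [abs_of_pos] <;> norm_num)
  have h2 : Tendsto (fun n : ℕ => C * ρ ^ n) atTop (𝓝 0) := by
    have := (tendsto_pow_atTop_nhds_zero_of_lt_one h0.le h1).const_mul C
    rwa [mul_zero] at this
  have h3 : ∀ᶠ n : ℕ in atTop, C * ρ ^ n ≤ 1 / 2 := by
    have := h2.eventually (gt_mem_nhds (by norm_num : (0 : ℝ) < 1 / 2))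
    filter_upwards [this] with n hn using hn.le
  refine tendsto_of_tendsto_of_tendsto_of_le_of_le' tendsto_const_nhds hhalf ?_ ?_
  · exact Eventually.of_forall fun n => by positivity
  · filter_upwards [h3] with n hn
    refine mul_le_mul_of_nonneg_left ?_ (by positivity)
    have : C ^ n * ρ ^ (n ^ 2) = (C * ρ ^ n) ^ n := by
      rw [mul_pow, ← pow_mul, sq]
    rw [this]
    exact pow_le_pow_left₀ (by positivity) hn n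

theorem asy2_ev {f : ℕ → ℝ} (hf : Tendsto f atTop (𝓝 0)) (A : ℝ) (ε : ℝ) (hε : 0 < ε) :
    ∀ᶠ n : ℕ in atTop, A * f n < ε := by
  have := hf.const_mul A
  rw [mul_zero] at this
  exact this.eventually (gt_mem_nhds hε)

theorem exists_params2 (M1 M0 : ℕ) (h1 : 0 < M1) (h10 : M1 < M0) (r : ℝ) (hr0 : 0 < r)
    (hr1 : r < 1) :
    ∃ ℓ κ : ℕ, 0 < ℓ ∧ ∀ d Q : ℕ, d = 1 + κ * M0 → Q = 3 * ℓ * (M1 + M0) * (d + κ) →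
      Q ≤ 2 ^ (ℓ - 1) ∧
      r ^ d ≤ 1 / 8 ∧
      ((M1 : ℝ) / M0) ^ (d - 1) ≤ 1 / 2 ∧
      2 * (κ : ℝ) * ((M1 : ℝ) + M0) * ((M1 : ℝ) / M0) ^ (d - 1) ≤ 1 ∧
      2 * ((M1 : ℝ) + M0) * (Q : ℝ) * (1 / 3 : ℝ) ^ (3 * ℓ - 1) ≤ 1 ∧
      2 * (8 * ((M1 : ℝ) + M0) ^ 2 * r ^ d + ((M1 : ℝ) + M0) * ((M1 : ℝ) / M0) ^ (d - 1))
          + ((M1 : ℝ) + M0) * (((M1 : ℝ) + M0) * (Q : ℝ)) ^ 2 * r ^ d
        < ((M1 : ℝ) + M0) * ((1 / (4 * ((M1 : ℝ) + M0))) ^ (M1 + M0)) ^ (3 * ℓ - 1)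
            * (1 / (2 * ((M1 : ℝ) + M0))) := by
  have hM1 : (0 : ℝ) < M1 := by exact_mod_cast h1
  have hM0 : (0 : ℝ) < M0 := by exact_mod_cast h1.trans h10
  have hM10 : (M1 : ℝ) < M0 := by exact_mod_cast h10
  set N : ℝ := (M1 : ℝ) + M0 with hN
  have hNpos : 0 < N := by positivity
  have hN1 : 1 ≤ N := by
    have : (1 : ℝ) ≤ M1 := by exact_mod_cast h1
    linarith
  set ρ : ℝ := max r ((M1 : ℝ) / M0) with hρ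
  have hρ0 : 0 < ρ := lt_of_lt_of_le hr0 (le_max_left _ _)
  have hρ1 : ρ < 1 := by
    rw [hρ, max_lt_iff]
    exact ⟨hr1, (div_lt_one hM0).mpr hM10⟩
  set c : ℝ := (1 / (4 * N)) ^ (M1 + M0) with hc
  have hc0 : 0 < c := by positivity
  have hc1 : c ≤ 1 := by
    refine pow_le_one₀ (by positivity) ?_
    rw [div_le_one (by positivity)]
    linarith
  set A : ℝ := 3 * N * (M0 + 2) with hA
  have hApos : 0 < A := by positivity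
  have e1 := asy2_ev (tendsto_pow_const_mul_const_pow_of_abs_lt_one 3
    (r := (1 / 2 : ℝ)) (by rw [abs_of_pos] <;> norm_num)) (2 * A) 1 one_pos
  have e2 := asy2_ev (asy2_tend 0 1 ρ one_pos hρ0 hρ1) 1 (1 / 8) (by norm_num)
  have e4 := asy2_ev (asy2_tend 2 1 ρ one_pos hρ0 hρ1) (2 * N) 1 one_pos
  have e5 := asy2_ev (tendsto_pow_const_mul_const_pow_of_abs_lt_one 3
    (r := (1 / 27 : ℝ)) (by rw [abs_of_pos] <;> norm_num)) (6 * N * A) 1 one_pos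
  have e6 := asy2_ev (asy2_tend 0 (1 / c ^ 3) ρ (by positivity) hρ0 hρ1)
    (16 * N ^ 2 + 2 * N) (1 / 4) (by norm_num)
  have e7 := asy2_ev (asy2_tend 6 (1 / c ^ 3) ρ (by positivity) hρ0 hρ1)
    (N ^ 3 * A ^ 2) (1 / 4) (by norm_num)
  obtain ⟨ℓ, ⟨⟨⟨⟨⟨⟨g1, g2⟩, g4⟩, g5⟩, g6⟩, g7⟩, hℓ⟩⟩ :=
    ((((((e1.and e2).and e4).and e5).and e6).and e7).and (eventually_gt_atTop 0)).exists
  refine ⟨ℓ, ℓ ^ 2, hℓ, ?_⟩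
  intro d Q hd hQ
  have hℓ1 : (1 : ℝ) ≤ ℓ := by exact_mod_cast hℓ
  have hE : ∀ x : ℝ, 0 ≤ x → x ≤ ρ → ∀ m : ℕ, ℓ ^ 2 ≤ m → x ^ m ≤ ρ ^ (ℓ ^ 2) := by
    intro x hx0 hx m hm
    calc x ^ m ≤ ρ ^ m := pow_le_pow_left₀ hx0 hx m
      _ ≤ ρ ^ (ℓ ^ 2) := pow_le_pow_of_le_one hρ0.le hρ1.le hm
  have hm0 : ℓ ^ 2 ≤ ℓ ^ 2 * M0 := Nat.le_mul_of_pos_right _ (by omega)
  have hrd : r ^ d ≤ ρ ^ (ℓ ^ 2) := hE r hr0.le (le_max_left _ _) d (by omega)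
  have hud : ((M1 : ℝ) / M0) ^ (d - 1) ≤ ρ ^ (ℓ ^ 2) :=
    hE _ (by positivity) (le_max_right _ _) (d - 1) (by omega)
  have hrd0 : 0 ≤ r ^ d := by positivity
  have hud0 : 0 ≤ ((M1 : ℝ) / M0) ^ (d - 1) := by positivity
  have hEpos : 0 < ρ ^ (ℓ ^ 2) := by positivity
  have hQA : (Q : ℝ) ≤ A * ℓ ^ 3 := by
    rw [hQ, hd, hA]
    push_cast
    rw [← hN]
    have h3 : (1 : ℝ) + ℓ ^ 2 * M0 + ℓ ^ 2 ≤ (M0 + 2) * ℓ ^ 2 := by nlinarith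
    calc 3 * (ℓ : ℝ) * N * (1 + ℓ ^ 2 * M0 + ℓ ^ 2) ≤ 3 * (ℓ : ℝ) * N * ((M0 + 2) * ℓ ^ 2) :=
          mul_le_mul_of_nonneg_left h3 (by positivity)
      _ = 3 * N * (M0 + 2) * ℓ ^ 3 := by ring
  have hQ0 : (0 : ℝ) ≤ Q := Nat.cast_nonneg _
  simp only [pow_zero, one_mul, one_pow] at g2 g4 g6
  refine ⟨?_, ?_, ?_, ?_, ?_, ?_⟩
  · have h3 : (Q : ℝ) ≤ 2 ^ (ℓ - 1) := by
      have h4 : (2 : ℝ) ^ (ℓ - 1) = 2 ^ ℓ / 2 := by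
        rw [eq_div_iff (by norm_num)]
        rw [← pow_succ]
        congr 1
        omega
      rw [h4]
      have h5 : 2 * A * (ℓ : ℝ) ^ 3 < 2 ^ ℓ := by
        have h6 : (2 : ℝ) * A * ((ℓ : ℝ) ^ 3 * (1 / 2) ^ ℓ) * 2 ^ ℓ < 1 * 2 ^ ℓ :=
          mul_lt_mul_of_pos_right g1 (by positivity)
        have h7 : (2 : ℝ) * A * ((ℓ : ℝ) ^ 3 * (1 / 2) ^ ℓ) * 2 ^ ℓ =
            2 * A * (ℓ : ℝ) ^ 3 * ((1 / 2 : ℝ) ^ ℓ * 2 ^ ℓ) := by ring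
        rw [h7, ← mul_pow, one_div, inv_mul_cancel₀ (by norm_num), one_pow, mul_one,
          one_mul] at h6
        exact h6
      linarith
    exact_mod_cast h3
  · linarith
  · linarith
  · push_cast
    calc 2 * (ℓ : ℝ) ^ 2 * N * ((M1 : ℝ) / M0) ^ (d - 1)
        ≤ 2 * (ℓ : ℝ) ^ 2 * N * ρ ^ (ℓ ^ 2) := mul_le_mul_of_nonneg_left hud (by positivity)
      _ = 2 * N * ((ℓ : ℝ) ^ 2 * ρ ^ (ℓ ^ 2)) := by ring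
      _ ≤ 1 := g4.le
  · have h4 : (1 / 3 : ℝ) ^ (3 * ℓ - 1) = 3 * (1 / 27) ^ ℓ := by
      have h5 : (1 / 3 : ℝ) ^ (3 * ℓ - 1) * (1 / 3) = (1 / 27) ^ ℓ := by
        rw [← pow_succ, show 3 * ℓ - 1 + 1 = 3 * ℓ by omega, pow_mul]
        norm_num
      rw [← h5]; ring
    rw [h4]
    calc 2 * N * (Q : ℝ) * (3 * (1 / 27) ^ ℓ)
        ≤ 2 * N * (A * ℓ ^ 3) * (3 * (1 / 27) ^ ℓ) := by gcongr
      _ = 6 * N * A * ((ℓ : ℝ) ^ 3 * (1 / 27) ^ ℓ) := by ring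
      _ ≤ 1 := g5.le
  · have hR : N * c ^ (3 * ℓ - 1) * (1 / (2 * N)) = c ^ (3 * ℓ - 1) / 2 := by
      field_simp
    rw [hR]
    have h3 : c ^ (3 * ℓ) ≤ c ^ (3 * ℓ - 1) := pow_le_pow_of_le_one hc0.le hc1 (by omega)
    have hcl : 0 < c ^ (3 * ℓ) := by positivity
    have h4 : ∀ x : ℝ, x * ((1 / c ^ 3) ^ ℓ * ρ ^ (ℓ ^ 2)) * c ^ (3 * ℓ) = x * ρ ^ (ℓ ^ 2) := by
      intro x
      have h5 : (1 / c ^ 3) ^ ℓ * c ^ (3 * ℓ) = 1 := by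
        rw [pow_mul, ← mul_pow, one_div, inv_mul_cancel₀ (by positivity), one_pow]
      calc x * ((1 / c ^ 3) ^ ℓ * ρ ^ (ℓ ^ 2)) * c ^ (3 * ℓ)
          = x * ρ ^ (ℓ ^ 2) * ((1 / c ^ 3) ^ ℓ * c ^ (3 * ℓ)) := by ring
        _ = x * ρ ^ (ℓ ^ 2) := by rw [h5, mul_one]
    have k6 := mul_lt_mul_of_pos_right g6 hcl
    rw [h4] at k6
    have k7 := mul_lt_mul_of_pos_right g7 hcl
    have h8 : N ^ 3 * A ^ 2 * ((ℓ : ℝ) ^ 6 * ((1 / c ^ 3) ^ ℓ * ρ ^ (ℓ ^ 2))) * c ^ (3 * ℓ) =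
        N ^ 3 * A ^ 2 * ((ℓ : ℝ) ^ 6) * ρ ^ (ℓ ^ 2) := by
      calc N ^ 3 * A ^ 2 * ((ℓ : ℝ) ^ 6 * ((1 / c ^ 3) ^ ℓ * ρ ^ (ℓ ^ 2))) * c ^ (3 * ℓ)
          = (N ^ 3 * A ^ 2 * (ℓ : ℝ) ^ 6) * ((1 / c ^ 3) ^ ℓ * ρ ^ (ℓ ^ 2)) * c ^ (3 * ℓ) := by
            rw [← mul_assoc (N ^ 3 * A ^ 2)]
        _ = N ^ 3 * A ^ 2 * ((ℓ : ℝ) ^ 6) * ρ ^ (ℓ ^ 2) := h4 _
    rw [h8] at k7
    have h9 : 2 * (8 * N ^ 2 * r ^ d + N * ((M1 : ℝ) / M0) ^ (d - 1)) ≤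
        (16 * N ^ 2 + 2 * N) * ρ ^ (ℓ ^ 2) := by
      have i1 : 8 * N ^ 2 * r ^ d ≤ 8 * N ^ 2 * ρ ^ (ℓ ^ 2) :=
        mul_le_mul_of_nonneg_left hrd (by positivity)
      have i2 : N * ((M1 : ℝ) / M0) ^ (d - 1) ≤ N * ρ ^ (ℓ ^ 2) :=
        mul_le_mul_of_nonneg_left hud hNpos.le
      linarith
    have h10 : N * (N * (Q : ℝ)) ^ 2 * r ^ d ≤ N ^ 3 * A ^ 2 * ((ℓ : ℝ) ^ 6) * ρ ^ (ℓ ^ 2) := by
      calc N * (N * (Q : ℝ)) ^ 2 * r ^ d ≤ N * (N * (A * ℓ ^ 3)) ^ 2 * ρ ^ (ℓ ^ 2) := by gcongr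
        _ = N ^ 3 * A ^ 2 * ((ℓ : ℝ) ^ 6) * ρ ^ (ℓ ^ 2) := by ring
    linarith

end Pool.Agent.H4.FQ
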