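import Pool.Agent.H4.FP.Amp

/-!
Module AMP2 (about 130 lines): exponential Markov amplification for sets of different sizes
(the equal size case is H4/FP/Amp.lean, theorem `amplify`; please reuse its text).

G1, G0 finite nonempty sets, a = #{g ∈ G1 : V g}, b = #{g ∈ G0 : V g}, a |G0| < b |G1|.
pa = a/|G1| < pb = b/|G0| ≤ 1. For t = 1 + s, s > 0 small: P = 1 + pa (t-1), C = 1 - pb (1 - 1/t):
P C ≤ 1 + s (pa - pb/t) < 1 as soon as pa t < pb (e.g. t = 1 + 1/(|G0||G1|)), C > 0.
r = sqrt (P C).  Then as in `amplify` with m0 = Nat.find of t^m r^d ≥ P^d: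
#{w ∈ G1^d : m ≤ #V} ≤ |G1|^d P^d / t^m ≤ r^d |G1|^d,  #{w ∈ G0^d : #V < m} ≤ |G0|^d C^d t^(m-1) ≤ r^d |G0|^d.
-/

set_option autoImplicit false

namespace Pool.Agent.H4.FQ

open Pool.Agent.H4.FP

theorem amplify2 {β : Type} [DecidableEq β] (G1 G0 : Finset β) (V : β → Prop) [DecidablePred V]
    (hG1 : 0 < G1.card) (hG0 : 0 < G0.card)
    (hlt : (G1.filter V).card * G0.card < (G0.filter V).card * G1.card) :
    ∃ r : ℝ, 0 < r ∧ r < 1 ∧ ∀ d : ℕ, ∃ m : ℕ,
      (((Fintype.piFinset fun _ : Fin d => G1).filter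
        (fun w => m ≤ (Finset.univ.filter (fun i => V (w i))).card)).card : ℝ)
          ≤ r ^ d * (G1.card : ℝ) ^ d ∧
      (((Fintype.piFinset fun _ : Fin d => G0).filter
        (fun w => (Finset.univ.filter (fun i => V (w i))).card < m)).card : ℝ)
          ≤ r ^ d * (G0.card : ℝ) ^ d := by
  obtain ⟨a, ha⟩ : ∃ a : ℕ, a = (G1.filter V).card := ⟨_, rfl⟩
  obtain ⟨b, hb⟩ : ∃ b : ℕ, b = (G0.filter V).card := ⟨_, rfl⟩
  obtain ⟨M, hM⟩ : ∃ M : ℕ, M = G1.card := ⟨_, rfl⟩
  obtain ⟨M', hM'⟩ : ∃ M' : ℕ, M' = G0.card := ⟨_, rfl⟩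
  have hab : a * M' < b * M := by rw [ha, hb, hM, hM']; exact hlt
  have haM : a ≤ M := by rw [ha, hM]; exact Finset.card_filter_le _ _
  have hbM : b ≤ M' := by rw [hb, hM']; exact Finset.card_filter_le _ _
  have hM0 : 0 < M := by omega
  have hM0' : 0 < M' := by omega
  have hMr : (0 : ℝ) < M := by exact_mod_cast hM0
  have hMr' : (0 : ℝ) < M' := by exact_mod_cast hM0'
  have habr : (a : ℝ) * M' + 1 ≤ b * M := by exact_mod_cast hab
  have haMr : (a : ℝ) ≤ M := by exact_mod_cast haM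
  have hbMr : (b : ℝ) ≤ M' := by exact_mod_cast hbM
  have ha0 : (0 : ℝ) ≤ a := Nat.cast_nonneg a
  have hb0 : (0 : ℝ) ≤ b := Nat.cast_nonneg b
  have hbpos : (0 : ℝ) < b := by
    rcases Nat.eq_zero_or_pos b with h | h
    · rw [h] at hab; omega
    · exact_mod_cast h
  obtain ⟨s, hs⟩ : ∃ s : ℝ, s = 1 / (M * M') := ⟨_, rfl⟩
  have hs0 : 0 < s := by rw [hs]; positivity
  obtain ⟨t, ht⟩ : ∃ t : ℝ, t = 1 + s := ⟨_, rfl⟩
  have ht1 : 1 < t := by rw [ht]; linarith
  have ht0 : 0 < t := by linarith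
  obtain ⟨P, hP⟩ : ∃ P : ℝ, P = a * t + (M - a) := ⟨_, rfl⟩
  obtain ⟨C, hC⟩ : ∃ C : ℝ, C = b * t⁻¹ + (M' - b) := ⟨_, rfl⟩
  have hP' : P = M + a * s := by rw [hP, ht]; ring
  have hC' : C = M' - b * s / t := by
    rw [hC, ht]
    have : (1 : ℝ) + s ≠ 0 := by positivity
    field_simp
    ring
  have hP0 : 0 < P := by rw [hP']; positivity
  have hC0 : 0 < C := by
    rw [hC]
    have h1 : 0 < b * t⁻¹ := by positivity
    linarith
  -- `a M' t ≤ b M`
  have hkey : (a : ℝ) * M' * t ≤ b * M := by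
    have h1 : (a : ℝ) * M' * s ≤ 1 := by
      rw [hs, mul_one_div, div_le_one (by positivity)]
      nlinarith
    rw [ht]
    nlinarith
  have hPC : P * C < M * M' := by
    have h1 : P * C * t = (M * M') * t - (s * (b * M - a * M' * t) + a * b * s ^ 2) := by
      rw [hP', hC']
      field_simp
      ring
    have h2 : 0 < s * (b * M - a * M' * t) + a * b * s ^ 2 := by
      rcases ha0.lt_or_eq with h | h
      · have h3 : 0 ≤ s * (b * M - a * M' * t) := mul_nonneg hs0.le (by linarith)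
        have h4 : 0 < a * b * s ^ 2 := by positivity
        linarith
      · rw [← h]
        have h3 : 0 < s * (b * M) := by positivity
        simpa using h3
    have h3 : P * C * t < (M * M') * t := by rw [h1]; linarith
    exact lt_of_mul_lt_mul_right h3 ht0.le
  obtain ⟨r, hr⟩ : ∃ r : ℝ, r = Real.sqrt (P * C / (M * M')) := ⟨_, rfl⟩
  have hr2 : r ^ 2 = P * C / (M * M') := by
    rw [hr, Real.sq_sqrt (by positivity)]
  have hrM : (r * M') * (r * M) = P * C := by
    have h1 : (r * M') * (r * M) = r ^ 2 * (M * M') := by ring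
    rw [h1, hr2, div_mul_cancel₀ _ (by positivity)]
  have hr0 : 0 < r := by rw [hr]; positivity
  have hr1 : r < 1 := by
    have h1 : r ^ 2 < 1 := by
      rw [hr2, div_lt_one (by positivity)]
      exact hPC
    nlinarith
  refine ⟨r, hr0, hr1, fun d => ?_⟩
  rw [← hM, ← hM', ← mul_pow, ← mul_pow]
  have hQ : 0 < (r * M) ^ d := by positivity
  have hex : ∃ m : ℕ, P ^ d ≤ t ^ m * (r * M) ^ d := by
    obtain ⟨m, hm⟩ := pow_unbounded_of_one_lt (P ^ d / (r * M) ^ d) ht1
    exact ⟨m, by rw [div_lt_iff₀ hQ] at hm; exact hm.le⟩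
  classical
  obtain ⟨m, hm1, hm2⟩ : ∃ m : ℕ, P ^ d ≤ t ^ m * (r * M) ^ d ∧
      ∀ m' < m, t ^ m' * (r * M) ^ d < P ^ d :=
    ⟨Nat.find hex, Nat.find_spec hex, fun m' hm' => not_le.mp (Nat.find_min hex hm')⟩
  refine ⟨m, ?_, ?_⟩
  · have h1 := amp_sum G1 V d t
    rw [← ha, ← hM, ← hP] at h1
    have h2 : (((Fintype.piFinset fun _ : Fin d => G1).filter
        (fun w => m ≤ (Finset.univ.filter (fun i => V (w i))).card)).card : ℝ) * t ^ m ≤ P ^ d := by
      rw [← h1, ← nsmul_eq_mul, ← Finset.sum_const]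
      refine le_trans (Finset.sum_le_sum fun w hw => ?_)
        (Finset.sum_le_sum_of_subset_of_nonneg (Finset.filter_subset _ _)
          fun w _ _ => (pow_pos ht0 _).le)
      exact pow_le_pow_right₀ ht1.le (Finset.mem_filter.mp hw).2
    have h3 := h2.trans hm1
    rw [mul_comm (t ^ m)] at h3
    exact le_of_mul_le_mul_right h3 (pow_pos ht0 m)
  · rcases Nat.eq_zero_or_pos m with h0 | hpos
    · subst h0
      simp only [Nat.not_lt_zero, Finset.filter_false, Finset.card_empty, Nat.cast_zero]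
      positivity
    · have h1 := amp_sum G0 V d t⁻¹
      rw [← hb, ← hM', ← hC] at h1
      have hti : 0 < t⁻¹ := inv_pos.mpr ht0
      have h2 : (((Fintype.piFinset fun _ : Fin d => G0).filter
          (fun w => (Finset.univ.filter (fun i => V (w i))).card < m)).card : ℝ) *
            t⁻¹ ^ (m - 1) ≤ C ^ d := by
        rw [← h1, ← nsmul_eq_mul, ← Finset.sum_const]
        refine le_trans (Finset.sum_le_sum fun w hw => ?_)
          (Finset.sum_le_sum_of_subset_of_nonneg (Finset.filter_subset _ _)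
            fun w _ _ => (pow_pos hti _).le)
        have h3 := (Finset.mem_filter.mp hw).2
        exact pow_le_pow_of_le_one hti.le (inv_le_one_of_one_le₀ ht1.le) (by omega)
      have h4 := hm2 (m - 1) (by omega)
      have h5 : C ^ d * t ^ (m - 1) * (r * M) ^ d ≤ (r * M') ^ d * (r * M) ^ d := by
        have h6 : (r * M') ^ d * (r * M) ^ d = C ^ d * P ^ d := by
          rw [← mul_pow, ← mul_pow, hrM, mul_comm]
        rw [h6, mul_assoc]
        exact mul_le_mul_of_nonneg_left h4.le (by positivity)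
      have h7 : C ^ d * t ^ (m - 1) ≤ (r * M') ^ d := le_of_mul_le_mul_right h5 hQ
      rw [inv_pow, ← div_eq_mul_inv, div_le_iff₀ (pow_pos ht0 _)] at h2
      exact h2.trans h7

end Pool.Agent.H4.FQ
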