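import Pool.Agent.H4.FP.Defs

/-!
Second wave for MP_75f39d_co: minimisers of (largest frequency)/(number of members).
Overview: /team-store/H4_75f39d_min.md
-/

set_option autoImplicit false

namespace Pool.Agent.H4.FQ

open Pool.Agent.H4.FP

/-- every union-closed family with a nonempty member has a point `x` with `a |A| ≤ n freq x` -/
def FranklAt (a n : ℕ) : Prop :=
  ∀ A : Finset (Finset ℕ), UC A → (∃ X ∈ A, X.Nonempty) →
    ∃ x ∈ A.sup id, a * A.card ≤ n * freq A x

/-! Engine -/

section engine
variable {σ K A : Type} [DecidableEq σ] [Fintype K] [DecidableEq K] [Fintype A]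

/-- configurations obeying all operations: if all coordinates other than `un a` match the boxes
`T a`, then the coordinate `un a` is in `I a` -/
def fam2 (S : Finset σ) (T : A → K → Finset σ) (un : A → K) (I : A → Finset σ) :
    Finset (K → σ) := by
  classical
  exact (Fintype.piFinset fun _ : K => S).filter fun W =>
    ∀ a : A, (∀ j, j ≠ un a → W j ∈ T a j) → W (un a) ∈ I a

/-- the configurations removed by the operation `a` -/
def X2 (S : Finset σ) (T : A → K → Finset σ) (un : A → K) (I : A → Finset σ) (a : A) :
    Finset (K → σ) :=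
  Fintype.piFinset fun j => if j = un a then S \ I a else T a j

end engine

/-- state of the unit `u` of a group in the symbol `h` -/
def st (N M1 : ℕ) (h u : ZMod N) : Bool := decide ((u - h).val < M1)

/-- the boxes of the tagged operations: group `γ` of the unit `un m` is free, in the other groups
the units are in the states prescribed by the symbol `code m j + s` -/
def TT {σ M : Type} (N M1 ℓ : ℕ) (S : Finset σ) (D : Bool → Finset σ)
    (un : M → (Fin 3 × Fin ℓ) × ZMod N) (code : M → Fin ℓ → ZMod N) :
    M × ZMod N → (Fin 3 × Fin ℓ) × ZMod N → Finset σ :=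
  fun a k => if k.1 = (un a.1).1 then S else D (st N M1 (code a.1 k.1.2 + a.2) k.2)

/-! The family `SS2`: coordinates `none` (chain) and `some i` (members of `B`) -/

/-- chain of `L` sets `∅, {0}, ..., {0,...,L-2}` -/
def chain (L : ℕ) : Finset (Finset ℕ) := (Finset.range L).image Finset.range

def Off2 (B : Finset (Finset ℕ)) (z d : ℕ) : Finset (Option (Fin d) → Finset ℕ) :=
  Fintype.piFinset fun o => Option.elim o {∅} (fun _ => B.filter (fun Z => z ∉ Z))

def On2 (B : Finset (Finset ℕ)) (z d L : ℕ) : Finset (Option (Fin d) → Finset ℕ) :=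
  Fintype.piFinset fun o => Option.elim o (chain L) (fun _ => B.filter (fun Z => z ∈ Z))

def SS2 (B : Finset (Finset ℕ)) (z d L : ℕ) : Finset (Option (Fin d) → Finset ℕ) :=
  On2 B z d L ∪ Off2 B z d

/-- the weight `N [x ∈ w o] - M1` of the element `(o,x)` -/
def wt (N M1 : ℕ) {d : ℕ} (o : Option (Fin d)) (x : ℕ) (w : Option (Fin d) → Finset ℕ) : ℝ :=
  (if x ∈ w o then (N : ℝ) else 0) - M1

end Pool.Agent.H4.FQ
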