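import Pool.Agent.H4.FQ.Defs
import Pool.Agent.H4.FP.EngA

/-!
Module EA (about 130 lines): the general engine.
`X2 a` = boxes; `fam2` = Ω minus all X2 a (when T a j ⊆ S).
`box_avg`: FP.sum_box divided by |S|^|K|.
`fam2_sum`: FP.bonferroni with f/C, where |f| ≤ C, C > 0, divided by |S|^|K|.
`fam2_card`: the complement is the union of the X2 a.
`fam2_op`: if the join of u, v ∈ fam2 matches the boxes of a outside un a, so do u and v.
-/

set_option autoImplicit false

namespace Pool.Agent.H4.FQ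

variable {σ K A : Type} [DecidableEq σ] [Fintype K] [DecidableEq K] [Fintype A] [DecidableEq A]

omit [Fintype A] [DecidableEq A] in
theorem ea_mem_X2 {S : Finset σ} {T : A → K → Finset σ} {un : A → K} {I : A → Finset σ}
    (a : A) (W : K → σ) :
    W ∈ X2 S T un I a ↔ W (un a) ∈ S \ I a ∧ ∀ j, j ≠ un a → W j ∈ T a j := by
  unfold X2
  rw [Fintype.mem_piFinset]
  constructor
  · intro h
    refine ⟨?_, fun j hj => ?_⟩
    · have := h (un a)
      rwa [if_pos rfl] at this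
    · have := h j
      rwa [if_neg hj] at this
  · rintro ⟨h1, h2⟩ j
    by_cases hj : j = un a
    · rw [if_pos hj, hj]
      exact h1
    · rw [if_neg hj]
      exact h2 j hj

omit [DecidableEq A] in
theorem ea_mem_fam2 {S : Finset σ} {T : A → K → Finset σ} {un : A → K} {I : A → Finset σ}
    (W : K → σ) :
    W ∈ fam2 S T un I ↔ (∀ j, W j ∈ S) ∧
      ∀ a : A, (∀ j, j ≠ un a → W j ∈ T a j) → W (un a) ∈ I a := by
  unfold fam2
  rw [Finset.mem_filter, Fintype.mem_piFinset]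

theorem mem_fam2_iff {S : Finset σ} {T : A → K → Finset σ} {un : A → K} {I : A → Finset σ}
    (hT : ∀ a j, T a j ⊆ S) (W : K → σ) :
    W ∈ fam2 S T un I ↔
      (W ∈ Fintype.piFinset (fun _ : K => S) ∧ ∀ a, W ∉ X2 S T un I a) := by
  rw [ea_mem_fam2, Fintype.mem_piFinset]
  constructor
  · rintro ⟨h1, h2⟩
    refine ⟨h1, fun a ha => ?_⟩
    rw [ea_mem_X2] at ha
    exact (Finset.mem_sdiff.1 ha.1).2 (h2 a ha.2)
  · rintro ⟨h1, h2⟩
    refine ⟨h1, fun a ha => ?_⟩
    by_contra hI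
    exact h2 a ((ea_mem_X2 a W).2 ⟨Finset.mem_sdiff.2 ⟨h1 _, hI⟩, ha⟩)

theorem X2_subset {S : Finset σ} {T : A → K → Finset σ} {un : A → K} {I : A → Finset σ}
    (hT : ∀ a j, T a j ⊆ S) (a : A) :
    X2 S T un I a ⊆ Fintype.piFinset (fun _ : K => S) := by
  intro W hW
  rw [ea_mem_X2] at hW
  rw [Fintype.mem_piFinset]
  intro j
  by_cases hj : j = un a
  · rw [hj]
    exact (Finset.mem_sdiff.1 hW.1).1
  · exact hT a j (hW.2 j hj)

theorem fam2_op {S : Finset σ} {T : A → K → Finset σ} {un : A → K} {I : A → Finset σ}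
    (op : σ → σ → σ) (hS : ∀ u ∈ S, ∀ v ∈ S, op u v ∈ S)
    (hD : ∀ a j, ∀ u ∈ S, ∀ v ∈ S, op u v ∈ T a j → u ∈ T a j ∧ v ∈ T a j)
    (hI : ∀ a, ∀ u ∈ I a, ∀ v ∈ I a, op u v ∈ I a) :
    ∀ u ∈ fam2 S T un I, ∀ v ∈ fam2 S T un I,
      (fun k => op (u k) (v k)) ∈ fam2 S T un I := by
  intro u hu v hv
  rw [ea_mem_fam2] at hu hv ⊢
  refine ⟨fun j => hS _ (hu.1 j) _ (hv.1 j), fun a ha => ?_⟩
  exact hI a _ (hu.2 a fun j hj => (hD a j _ (hu.1 j) _ (hv.1 j) (ha j hj)).1)
    _ (hv.2 a fun j hj => (hD a j _ (hu.1 j) _ (hv.1 j) (ha j hj)).2)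

/-- average over a box of a function of one coordinate -/
theorem box_avg (S : Finset σ) (hS : 0 < S.card) (T : K → Finset σ) (f : σ → ℝ) (k : K) :
    (∑ W ∈ Fintype.piFinset T, f (W k)) / (S.card : ℝ) ^ (Fintype.card K)
      = ((∑ w ∈ T k, f w) / S.card) *
        ∏ j ∈ Finset.univ.erase k, (((T j).card : ℝ) / S.card) := by
  rw [FP.sum_box, Finset.prod_div_distrib, div_mul_div_comm]
  congr 1
  rw [Finset.mul_prod_erase Finset.univ (fun _ : K => (S.card : ℝ)) (Finset.mem_univ k),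
    Finset.prod_const, Finset.card_univ]

theorem card_avg (S : Finset σ) (hS : 0 < S.card) (T : K → Finset σ) :
    ((Fintype.piFinset T).card : ℝ) / (S.card : ℝ) ^ (Fintype.card K)
      = ∏ j, (((T j).card : ℝ) / S.card) := by
  rw [Finset.prod_div_distrib, Finset.prod_const, Finset.card_univ, Fintype.card_piFinset]
  push_cast
  rfl

theorem fam2_sum {S : Finset σ} (hS : 0 < S.card) {T : A → K → Finset σ} {un : A → K}
    {I : A → Finset σ} (hT : ∀ a j, T a j ⊆ S) (f : σ → ℝ) (C : ℝ) (hC : 0 < C)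
    (hf : ∀ w, |f w| ≤ C) (k : K) :
    (∑ W ∈ fam2 S T un I, f (W k)) / (S.card : ℝ) ^ (Fintype.card K)
      ≤ (∑ w ∈ S, f w) / S.card
        - ∑ a, (∑ W ∈ X2 S T un I a, f (W k)) / (S.card : ℝ) ^ (Fintype.card K)
        + C * ∑ a, ∑ b ∈ Finset.univ.filter (fun b => b ≠ a),
            ((X2 S T un I a ∩ X2 S T un I b).card : ℝ) / (S.card : ℝ) ^ (Fintype.card K) := by
  have hS' : (0 : ℝ) < (S.card : ℝ) := by exact_mod_cast hS
  have hP : (0 : ℝ) < (S.card : ℝ) ^ (Fintype.card K) := pow_pos hS' _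
  have hb := FP.bonferroni (Fintype.piFinset (fun _ : K => S)) (fam2 S T un I)
    (X2 S T un I) (X2_subset hT) (fun W => f (W k) / C)
    (by
      intro W _
      show |f (W k) / C| ≤ 1
      rw [abs_div, abs_of_pos hC, div_le_one hC]
      exact hf _) (mem_fam2_iff hT)
  have hOm : (∑ W ∈ Fintype.piFinset (fun _ : K => S), f (W k)) /
      (S.card : ℝ) ^ (Fintype.card K) = (∑ w ∈ S, f w) / S.card := by
    rw [box_avg S hS]
    have : ∏ j ∈ (Finset.univ : Finset K).erase k, ((S.card : ℝ) / S.card) = 1 := by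
      apply Finset.prod_eq_one
      intro j _
      exact div_self hS'.ne'
    rw [this, mul_one]
  simp_rw [← Finset.sum_div] at hb ⊢
  rw [← hOm]
  have h1 : (∑ W ∈ fam2 S T un I, f (W k)) ≤
      (∑ W ∈ Fintype.piFinset (fun _ : K => S), f (W k))
        - ∑ a, (∑ W ∈ X2 S T un I a, f (W k))
        + C * ∑ a, ∑ b ∈ Finset.univ.filter (fun b => b ≠ a),
            ((X2 S T un I a ∩ X2 S T un I b).card : ℝ) := by
    have h2 := mul_le_mul_of_nonneg_left hb hC.le
    rw [mul_add, mul_sub, mul_div_cancel₀ _ hC.ne', mul_div_cancel₀ _ hC.ne',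
      mul_div_cancel₀ _ hC.ne'] at h2
    exact h2
  have h3 := div_le_div_of_nonneg_right h1 hP.le
  rw [add_div, sub_div, mul_div_assoc] at h3
  exact h3

theorem fam2_card {S : Finset σ} (hS : 0 < S.card) {T : A → K → Finset σ} {un : A → K}
    {I : A → Finset σ} (hT : ∀ a j, T a j ⊆ S) :
    1 - ∑ a, ((X2 S T un I a).card : ℝ) / (S.card : ℝ) ^ (Fintype.card K)
      ≤ ((fam2 S T un I).card : ℝ) / (S.card : ℝ) ^ (Fintype.card K) := by
  have hS' : (0 : ℝ) < (S.card : ℝ) := by exact_mod_cast hS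
  have hP : (0 : ℝ) < (S.card : ℝ) ^ (Fintype.card K) := pow_pos hS' _
  have hsub : Fintype.piFinset (fun _ : K => S) ⊆
      fam2 S T un I ∪ Finset.univ.biUnion (X2 S T un I) := by
    intro W hW
    rw [Finset.mem_union, Finset.mem_biUnion]
    by_cases h : ∀ a, W ∉ X2 S T un I a
    · left
      exact (mem_fam2_iff hT W).2 ⟨hW, h⟩
    · right
      push Not at h
      obtain ⟨a, ha⟩ := h
      exact ⟨a, Finset.mem_univ a, ha⟩
  have hc := (Finset.card_le_card hsub).trans (Finset.card_union_le _ _)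
  have hc2 : (Fintype.piFinset (fun _ : K => S)).card ≤
      (fam2 S T un I).card + ∑ a, (X2 S T un I a).card :=
    hc.trans (Nat.add_le_add_left Finset.card_biUnion_le _)
  have hcard : (Fintype.piFinset (fun _ : K => S)).card = S.card ^ (Fintype.card K) := by
    rw [Fintype.card_piFinset, Finset.prod_const, Finset.card_univ]
  rw [hcard] at hc2
  have hc3 : (S.card : ℝ) ^ (Fintype.card K) ≤
      ((fam2 S T un I).card : ℝ) + ∑ a, ((X2 S T un I a).card : ℝ) := by
    exact_mod_cast hc2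
  rw [← Finset.sum_div, sub_le_iff_le_add, ← add_div, le_div_iff₀ hP, one_mul]
  exact hc3

end Pool.Agent.H4.FQ
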