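import Pool.Agent.H4.FQ.Defs

/-!
Module SYM (about 90 lines): symbols.
`card_val_lt`: #{v : ZMod N | v.val < M1} = M1 for M1 ≤ N.
`st_count_unit`: h ↦ u - h is a bijection; `st_count_sym`: u ↦ u - h.
`st_sep`: δ = (h - h').val ≥ 1.  If δ ≥ M1 take u = h.  If δ < M1 take u = h + (M1 - δ): (u-h).val = M1 - δ < M1 and (u-h').val = M1 (< N).
`exists_code2`: injective c : M → (Fin (ℓ-1) → Bool) ⊆ (→ ZMod N) via 0,1 (0 ≠ 1 in ZMod N as N ≥ 2), code m = Fin.cons 0 ..; if s ≠ s' use column 0,
 if s = s' the codes differ in a column.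
-/

set_option autoImplicit false

namespace Pool.Agent.H4.FQ

theorem sym_card_val_lt (N M1 : ℕ) [NeZero N] (h1 : M1 ≤ N) :
    (Finset.univ.filter (fun v : ZMod N => v.val < M1)).card = M1 := by
  have h : (Finset.univ.filter (fun v : ZMod N => v.val < M1)).card = (Finset.range M1).card := by
    refine Finset.card_nbij' (fun v => v.val) (fun n => (n : ZMod N)) ?_ ?_ ?_ ?_
    · intro v hv
      simpa using hv
    · intro n hn
      have hn' : n < M1 := by simpa using hn
      have hval : ((n : ZMod N)).val = n := ZMod.val_cast_of_lt (lt_of_lt_of_le hn' h1)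
      simp [hval, hn']
    · intro v _
      simp
    · intro n hn
      have hn' : n < M1 := by simpa using hn
      exact ZMod.val_cast_of_lt (lt_of_lt_of_le hn' h1)
  simpa using h

theorem st_count_unit (N M1 : ℕ) [NeZero N] (h1 : M1 ≤ N) (u : ZMod N) :
    (Finset.univ.filter (fun h : ZMod N => st N M1 h u = true)).card = M1 := by
  refine Eq.trans ?_ (sym_card_val_lt N M1 h1)
  refine Finset.card_nbij' (fun h => u - h) (fun v => u - v) ?_ ?_ ?_ ?_
  · intro h hh
    simpa [st] using hh
  · intro v hv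
    simpa [st] using hv
  · intro h _
    simp
  · intro v _
    simp

theorem st_count_sym (N M1 : ℕ) [NeZero N] (h1 : M1 ≤ N) (h : ZMod N) :
    (Finset.univ.filter (fun u : ZMod N => st N M1 h u = true)).card = M1 := by
  refine Eq.trans ?_ (sym_card_val_lt N M1 h1)
  refine Finset.card_nbij' (fun u => u - h) (fun v => v + h) ?_ ?_ ?_ ?_
  · intro u hu
    simpa [st] using hu
  · intro v hv
    simpa [st] using hv
  · intro u _
    simp
  · intro v _
    simp

theorem st_sep (N M1 : ℕ) [NeZero N] (h0 : 0 < M1) (h1 : M1 < N) (h h' : ZMod N) (hne : h ≠ h') :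
    ∃ u, st N M1 h u ≠ st N M1 h' u := by
  have hd0 : (h - h').val ≠ 0 := by
    intro hz
    have := (ZMod.val_eq_zero (h - h')).1 hz
    exact hne (sub_eq_zero.1 this)
  by_cases hd : M1 ≤ (h - h').val
  · refine ⟨h, ?_⟩
    have e1 : st N M1 h h = true := by simp [st, h0]
    have e2 : st N M1 h' h = false := by simp [st, hd]
    rw [e1, e2]
    decide
  · push Not at hd
    refine ⟨h + ((M1 - (h - h').val : ℕ) : ZMod N), ?_⟩
    have e1 : st N M1 h (h + ((M1 - (h - h').val : ℕ) : ZMod N)) = true := by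
      have hv : ((M1 - (h - h').val : ℕ) : ZMod N).val = M1 - (h - h').val :=
        ZMod.val_cast_of_lt (by omega)
      simp only [st, add_sub_cancel_left, hv, decide_eq_true_eq]
      omega
    have e2 : st N M1 h' (h + ((M1 - (h - h').val : ℕ) : ZMod N)) = false := by
      have hs : h + ((M1 - (h - h').val : ℕ) : ZMod N) - h' = (M1 : ZMod N) := by
        rw [Nat.cast_sub (le_of_lt hd), ZMod.natCast_zmod_val]
        ring
      have hv : ((M1 : ℕ) : ZMod N).val = M1 := ZMod.val_cast_of_lt h1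
      simp [st, hs, hv]
    rw [e1, e2]
    decide

theorem exists_code2 (M : Type) [Fintype M] [DecidableEq M] (N ℓ : ℕ) [NeZero N] (hN : 2 ≤ N)
    (hl : 0 < ℓ) (hM : Fintype.card M ≤ 2 ^ (ℓ - 1)) :
    ∃ code : M → Fin ℓ → ZMod N, ∀ (m m' : M) (s s' : ZMod N), (m, s) ≠ (m', s') →
      ∃ j, code m j + s ≠ code m' j + s' := by
  obtain ⟨e, rfl⟩ : ∃ e, ℓ = e + 1 := ⟨ℓ - 1, by omega⟩
  have hc : Fintype.card M ≤ Fintype.card (Fin e → Bool) := by
    simpa using hM
  obtain ⟨c⟩ := Function.Embedding.nonempty_of_card_le hc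
  have h01 : (0 : ZMod N) ≠ 1 := by
    have : Fact (1 < N) := ⟨by omega⟩
    exact zero_ne_one
  refine ⟨fun m => (Fin.cons (0 : ZMod N) (fun i => if c m i then (1 : ZMod N) else 0) :
    Fin (e + 1) → ZMod N), ?_⟩
  intro m m' s s' hne
  by_cases hs : s = s'
  · subst hs
    have hm : m ≠ m' := fun hm => hne (by rw [hm])
    have hcm : c m ≠ c m' := fun hh => hm (c.injective hh)
    obtain ⟨l, hl⟩ := Function.ne_iff.1 hcm
    refine ⟨l.succ, ?_⟩
    simp only [Fin.cons_succ]
    intro hx
    apply hl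
    have hx' := add_right_cancel hx
    revert hx'
    cases c m l <;> cases c m' l <;> simp [h01, h01.symm]
  · refine ⟨0, ?_⟩
    simpa only [Fin.cons_zero, zero_add] using hs

end Pool.Agent.H4.FQ
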