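import Pool.Agent.H4.FQ.EA
import Pool.Agent.H4.FQ.SYM

/-!
Module EB (about 200 lines): the tagged operations. Notation θ b = |D b|/|S|, φ = θ true ^ M1 * θ false ^ M0, N = M1 + M0, units K = (Fin 3 × Fin ℓ) × ZMod N,
T = TT N M1 ℓ S D un code, operations a = (m,s) ∈ M × ZMod N, unit of a: un m.  G = 3ℓ groups.
`prod_group`: product over the units of one group of θ(state) = φ (st_count_sym).
`X_self`: k = un m.  Product over j ≠ un m of |X2 j|/|S|: the other N-1 units of the own group are free (factor 1),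
  each other group gives φ: φ^(3ℓ-1).
`X_same`: k ≠ un m in the same group: factor |S \ I m|/|S| at un m and the average of f over S at k.
`X_other`: k in another group: sum over s of (product over the units u' ≠ u of the group of k of θ) * (Σ_{D(state)} f)/|S|; as s runs over ZMod N
  the symbol code + s runs over ZMod N, state true M1 times (st_count_unit), false M0 times; (product over the group without u) = φ/θ(state).
`X_card`: total mass ≤ φ^(3ℓ-1).
`X_pair`: a ≠ b: exists_code2 property gives a column j with different symbols; choose c : Fin 3 with (c,j) different from both own groups; st_sep gives a unit u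
  with different states: at this unit the intersection is inside D true ∩ D false; all the other factors ≤ 1.
-/

set_option autoImplicit false

namespace Pool.Agent.H4.FQ

variable {σ M : Type} [DecidableEq σ] [Fintype M] [DecidableEq M]

/-- hypotheses of the tagged engine -/
structure Setup2 (N M1 M0 ℓ : ℕ) (S : Finset σ) (D : Bool → Finset σ)
    (un : M → (Fin 3 × Fin ℓ) × ZMod N) (I : M → Finset σ) (code : M → Fin ℓ → ZMod N) : Prop where
  hN : N = M1 + M0
  hM1 : 0 < M1
  hM0 : 0 < M0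
  hl : 0 < ℓ
  Spos : 0 < S.card
  subD : ∀ b, D b ⊆ S
  Dpos : ∀ b, 0 < (D b).card
  subI : ∀ m, I m ⊆ S
  hcode : ∀ (m m' : M) (s s' : ZMod N), (m, s) ≠ (m', s') → ∃ j, code m j + s ≠ code m' j + s'

noncomputable def theta (S : Finset σ) (D : Bool → Finset σ) (b : Bool) : ℝ :=
  ((D b).card : ℝ) / S.card

noncomputable def phi (M1 M0 : ℕ) (S : Finset σ) (D : Bool → Finset σ) : ℝ :=
  theta S D true ^ M1 * theta S D false ^ M0

/-- the factor of a unit which is not the own unit -/
noncomputable def ebF (N M1 ℓ : ℕ) (S : Finset σ) (D : Bool → Finset σ)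
    (un : M → (Fin 3 × Fin ℓ) × ZMod N) (code : M → Fin ℓ → ZMod N) (m : M) (s : ZMod N)
    (j : (Fin 3 × Fin ℓ) × ZMod N) : ℝ :=
  if j.1 = (un m).1 then 1 else theta S D (st N M1 (code m j.1.2 + s) j.2)

theorem eb_sum_bool {ι : Type} [Fintype ι] (b : ι → Bool) (g : Bool → ℝ) (n1 n0 : ℕ)
    (h1 : (Finset.univ.filter (fun i => b i = true)).card = n1)
    (hn : Fintype.card ι = n1 + n0) :
    ∑ i, g (b i) = n1 * g true + n0 * g false := by
  classical
  rw [← Finset.sum_filter_add_sum_filter_not Finset.univ (fun i => b i = true)]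
  have h2 : ∑ i ∈ Finset.univ.filter (fun i => b i = true), g (b i) = n1 * g true := by
    rw [Finset.sum_congr rfl (g := fun _ => g true), Finset.sum_const, h1, nsmul_eq_mul]
    intro i hi
    rw [(Finset.mem_filter.1 hi).2]
  have h3 : (Finset.univ.filter (fun i => ¬ b i = true)).card = n0 := by
    have := Finset.card_filter_add_card_filter_not (s := (Finset.univ : Finset ι))
      (fun i => b i = true)
    rw [h1, Finset.card_univ, hn] at this
    omega
  have h4 : ∑ i ∈ Finset.univ.filter (fun i => ¬ b i = true), g (b i) = n0 * g false := by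
    rw [Finset.sum_congr rfl (g := fun _ => g false), Finset.sum_const, h3, nsmul_eq_mul]
    intro i hi
    rw [Bool.eq_false_iff.2 (Finset.mem_filter.1 hi).2]
  rw [h2, h4]

theorem eb_prod_bool {ι : Type} [Fintype ι] (b : ι → Bool) (g : Bool → ℝ) (n1 n0 : ℕ)
    (h1 : (Finset.univ.filter (fun i => b i = true)).card = n1)
    (hn : Fintype.card ι = n1 + n0) :
    ∏ i, g (b i) = g true ^ n1 * g false ^ n0 := by
  classical
  rw [← Finset.prod_filter_mul_prod_filter_not Finset.univ (fun i => b i = true)]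
  have h2 : ∏ i ∈ Finset.univ.filter (fun i => b i = true), g (b i) = g true ^ n1 := by
    rw [Finset.prod_congr rfl (g := fun _ => g true), Finset.prod_const, h1]
    intro i hi
    rw [(Finset.mem_filter.1 hi).2]
  have h3 : (Finset.univ.filter (fun i => ¬ b i = true)).card = n0 := by
    have := Finset.card_filter_add_card_filter_not (s := (Finset.univ : Finset ι))
      (fun i => b i = true)
    rw [h1, Finset.card_univ, hn] at this
    omega
  have h4 : ∏ i ∈ Finset.univ.filter (fun i => ¬ b i = true), g (b i) = g false ^ n0 := by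
    rw [Finset.prod_congr rfl (g := fun _ => g false), Finset.prod_const, h3]
    intro i hi
    rw [Bool.eq_false_iff.2 (Finset.mem_filter.1 hi).2]
  rw [h2, h4]

section
variable {N M1 M0 ℓ : ℕ} [NeZero N] {S : Finset σ} {D : Bool → Finset σ}
    {un : M → (Fin 3 × Fin ℓ) × ZMod N} {I : M → Finset σ} {code : M → Fin ℓ → ZMod N}

theorem prod_group (hs : Setup2 N M1 M0 ℓ S D un I code) (h : ZMod N) :
    ∏ u : ZMod N, theta S D (st N M1 h u) = phi M1 M0 S D := by
  have hN := hs.hN
  unfold phi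
  exact eb_prod_bool (fun u => st N M1 h u) (theta S D) M1 M0
    (st_count_sym N M1 (by omega) h) (by rw [ZMod.card, hN])

theorem eb_prodF (hs : Setup2 N M1 M0 ℓ S D un I code) (m : M) (s : ZMod N) :
    ∏ j, ebF N M1 ℓ S D un code m s j = phi M1 M0 S D ^ (3 * ℓ - 1) := by
  rw [Fintype.prod_prod_type]
  have h1 : ∀ γ : Fin 3 × Fin ℓ, ∏ u : ZMod N, ebF N M1 ℓ S D un code m s (γ, u) =
      if γ = (un m).1 then 1 else phi M1 M0 S D := by
    intro γ
    unfold ebF
    by_cases h : γ = (un m).1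
    · simp [h]
    · simp only [h, if_false]
      exact prod_group hs _
  rw [Finset.prod_congr rfl (fun γ _ => h1 γ),
    ← Finset.mul_prod_erase Finset.univ _ (Finset.mem_univ (un m).1), if_pos rfl, one_mul,
    Finset.prod_congr rfl (g := fun _ => phi M1 M0 S D), Finset.prod_const,
    Finset.card_erase_of_mem (Finset.mem_univ _), Finset.card_univ, Fintype.card_prod,
    Fintype.card_fin, Fintype.card_fin]
  intro γ hγ
  rw [if_neg (Finset.ne_of_mem_erase hγ)]

theorem eb_Spos (hs : Setup2 N M1 M0 ℓ S D un I code) : (0 : ℝ) < S.card := by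
  exact_mod_cast hs.Spos

theorem eb_Dpos (hs : Setup2 N M1 M0 ℓ S D un I code) (b : Bool) : (0 : ℝ) < (D b).card := by
  exact_mod_cast hs.Dpos b

theorem eb_theta_pos (hs : Setup2 N M1 M0 ℓ S D un I code) (b : Bool) : 0 < theta S D b :=
  div_pos (eb_Dpos hs b) (eb_Spos hs)

theorem eb_factor (hs : Setup2 N M1 M0 ℓ S D un I code) (m : M) (s : ZMod N)
    (j : (Fin 3 × Fin ℓ) × ZMod N) :
    ((((if j = un m then S \ I m else TT N M1 ℓ S D un code (m, s) j) : Finset σ).card : ℝ)
        / S.card)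
      = (if j = un m then (((S \ I m).card : ℝ) / S.card) else 1)
          * ebF N M1 ℓ S D un code m s j := by
  unfold ebF TT theta
  have hS := eb_Spos hs
  by_cases h : j = un m
  · rw [if_pos h, if_pos h, if_pos (by rw [h]), mul_one]
  · rw [if_neg h, if_neg h, one_mul]
    by_cases h1 : j.1 = (un m).1
    · rw [if_pos h1, if_pos h1, div_self hS.ne']
    · rw [if_neg h1, if_neg h1]

theorem eb_ite_prod (m : M) (c : ℝ) (A : Finset ((Fin 3 × Fin ℓ) × ZMod N)) :
    ∏ j ∈ A, (if j = un m then c else 1) = if un m ∈ A then c else 1 := by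
  rw [Finset.prod_ite_eq']

/-- the average over a box -/
theorem eb_avg (hs : Setup2 N M1 M0 ℓ S D un I code) (f : σ → ℝ) (m : M) (s : ZMod N)
    (k : (Fin 3 × Fin ℓ) × ZMod N) :
    (∑ W ∈ X2 S (TT N M1 ℓ S D un code) (fun a => un a.1) (fun a => I a.1) (m, s), f (W k))
        / (S.card : ℝ) ^ (Fintype.card ((Fin 3 × Fin ℓ) × ZMod N))
      = ((∑ w ∈ (if k = un m then S \ I m else TT N M1 ℓ S D un code (m, s) k), f w) / S.card)
        * ((if k = un m then 1 else (((S \ I m).card : ℝ) / S.card))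
          * ∏ j ∈ Finset.univ.erase k, ebF N M1 ℓ S D un code m s j) := by
  unfold X2
  rw [box_avg S hs.Spos]
  congr 1
  rw [Finset.prod_congr rfl (fun j _ => eb_factor hs m s j), Finset.prod_mul_distrib,
    eb_ite_prod]
  congr 1
  by_cases h : k = un m
  · rw [if_pos h, if_neg]
    rw [h]
    exact Finset.notMem_erase _ _
  · rw [if_neg h, if_pos]
    exact Finset.mem_erase.2 ⟨fun h' => h h'.symm, Finset.mem_univ _⟩

theorem eb_erase_one (hs : Setup2 N M1 M0 ℓ S D un I code) (m : M) (s : ZMod N)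
    (k : (Fin 3 × Fin ℓ) × ZMod N) (hk : k.1 = (un m).1) :
    ∏ j ∈ Finset.univ.erase k, ebF N M1 ℓ S D un code m s j = phi M1 M0 S D ^ (3 * ℓ - 1) := by
  rw [← eb_prodF hs m s, ← Finset.mul_prod_erase Finset.univ _ (Finset.mem_univ k)]
  have : ebF N M1 ℓ S D un code m s k = 1 := by
    unfold ebF
    rw [if_pos hk]
  rw [this, one_mul]

theorem eb_phi_nonneg (hs : Setup2 N M1 M0 ℓ S D un I code) : 0 ≤ phi M1 M0 S D := by
  have h1 := (eb_theta_pos hs true).le
  have h2 := (eb_theta_pos hs false).le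
  unfold phi
  positivity

end

theorem X_self {N M1 M0 ℓ : ℕ} [NeZero N] {S : Finset σ} {D : Bool → Finset σ}
    {un : M → (Fin 3 × Fin ℓ) × ZMod N} {I : M → Finset σ} {code : M → Fin ℓ → ZMod N}
    (hs : Setup2 N M1 M0 ℓ S D un I code) (f : σ → ℝ) (m : M) (s : ZMod N) :
    (∑ W ∈ X2 S (TT N M1 ℓ S D un code) (fun a => un a.1) (fun a => I a.1) (m, s), f (W (un m)))
        / (S.card : ℝ) ^ (Fintype.card ((Fin 3 × Fin ℓ) × ZMod N))
      = phi M1 M0 S D ^ (3 * ℓ - 1) * ((∑ w ∈ S \ I m, f w) / S.card) := by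
  rw [eb_avg hs f m s (un m), if_pos rfl, if_pos rfl, one_mul, eb_erase_one hs m s _ rfl, mul_comm]

theorem X_same {N M1 M0 ℓ : ℕ} [NeZero N] {S : Finset σ} {D : Bool → Finset σ}
    {un : M → (Fin 3 × Fin ℓ) × ZMod N} {I : M → Finset σ} {code : M → Fin ℓ → ZMod N}
    (hs : Setup2 N M1 M0 ℓ S D un I code) (f : σ → ℝ) (m : M) (s : ZMod N)
    (k : (Fin 3 × Fin ℓ) × ZMod N) (hk : k ≠ un m) (hk1 : k.1 = (un m).1) :
    (∑ W ∈ X2 S (TT N M1 ℓ S D un code) (fun a => un a.1) (fun a => I a.1) (m, s), f (W k))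
        / (S.card : ℝ) ^ (Fintype.card ((Fin 3 × Fin ℓ) × ZMod N))
      = phi M1 M0 S D ^ (3 * ℓ - 1) * (((S \ I m).card : ℝ) / S.card)
          * ((∑ w ∈ S, f w) / S.card) := by
  rw [eb_avg hs f m s k, if_neg hk, if_neg hk, eb_erase_one hs m s _ hk1]
  unfold TT
  rw [if_pos hk1]
  ring

theorem X_other {N M1 M0 ℓ : ℕ} [NeZero N] {S : Finset σ} {D : Bool → Finset σ}
    {un : M → (Fin 3 × Fin ℓ) × ZMod N} {I : M → Finset σ} {code : M → Fin ℓ → ZMod N}
    (hs : Setup2 N M1 M0 ℓ S D un I code) (f : σ → ℝ) (m : M)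
    (k : (Fin 3 × Fin ℓ) × ZMod N) (hk1 : k.1 ≠ (un m).1) :
    ∑ s : ZMod N,
      (∑ W ∈ X2 S (TT N M1 ℓ S D un code) (fun a => un a.1) (fun a => I a.1) (m, s), f (W k))
        / (S.card : ℝ) ^ (Fintype.card ((Fin 3 × Fin ℓ) × ZMod N))
      = phi M1 M0 S D ^ (3 * ℓ - 1) * (((S \ I m).card : ℝ) / S.card)
          * (M1 * ((∑ w ∈ D true, f w) / (D true).card)
              + M0 * ((∑ w ∈ D false, f w) / (D false).card)) := by
  have hk : k ≠ un m := fun h => hk1 (by rw [h])
  have hS := eb_Spos hs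
  have h1 : ∀ s : ZMod N,
      (∑ W ∈ X2 S (TT N M1 ℓ S D un code) (fun a => un a.1) (fun a => I a.1) (m, s), f (W k))
        / (S.card : ℝ) ^ (Fintype.card ((Fin 3 × Fin ℓ) × ZMod N))
      = (fun b : Bool => phi M1 M0 S D ^ (3 * ℓ - 1) * (((S \ I m).card : ℝ) / S.card)
          * ((∑ w ∈ D b, f w) / (D b).card)) (st N M1 (code m k.1.2 + s) k.2) := by
    intro s
    rw [eb_avg hs f m s k, if_neg hk, if_neg hk]
    have h2 : TT N M1 ℓ S D un code (m, s) k = D (st N M1 (code m k.1.2 + s) k.2) := by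
      unfold TT
      rw [if_neg hk1]
    rw [h2]
    have h3 := eb_prodF hs m s
    rw [← Finset.mul_prod_erase Finset.univ _ (Finset.mem_univ k)] at h3
    have h4 : ebF N M1 ℓ S D un code m s k = theta S D (st N M1 (code m k.1.2 + s) k.2) := by
      unfold ebF
      rw [if_neg hk1]
    rw [h4] at h3
    set b := st N M1 (code m k.1.2 + s) k.2
    have hD := eb_Dpos hs b
    simp only
    rw [← h3]
    unfold theta
    field_simp
  rw [Finset.sum_congr rfl (fun s _ => h1 s)]
  have hN := hs.hN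
  have hc : (Finset.univ.filter (fun s : ZMod N =>
      st N M1 (code m k.1.2 + s) k.2 = true)).card = M1 := by
    have h5 := st_count_unit N M1 (by omega) k.2
    refine Eq.trans ?_ h5
    apply Finset.card_bij (fun s _ => code m k.1.2 + s)
    · intro s hs'
      rw [Finset.mem_filter] at hs' ⊢
      exact ⟨Finset.mem_univ _, hs'.2⟩
    · intro s _ s' _ h
      exact add_left_cancel h
    · intro h hh
      refine ⟨h - code m k.1.2, ?_, by ring⟩
      rw [Finset.mem_filter] at hh ⊢
      refine ⟨Finset.mem_univ _, ?_⟩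
      rw [add_sub_cancel]
      exact hh.2
  refine (eb_sum_bool (fun s : ZMod N => st N M1 (code m k.1.2 + s) k.2)
    (fun b : Bool => phi M1 M0 S D ^ (3 * ℓ - 1) * (((S \ I m).card : ℝ) / S.card)
          * ((∑ w ∈ D b, f w) / (D b).card)) M1 M0 hc (by rw [ZMod.card, hN])).trans ?_
  ring

theorem X_card {N M1 M0 ℓ : ℕ} [NeZero N] {S : Finset σ} {D : Bool → Finset σ}
    {un : M → (Fin 3 × Fin ℓ) × ZMod N} {I : M → Finset σ} {code : M → Fin ℓ → ZMod N}
    (hs : Setup2 N M1 M0 ℓ S D un I code) (a : M × ZMod N) :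
    ((X2 S (TT N M1 ℓ S D un code) (fun a => un a.1) (fun a => I a.1) a).card : ℝ)
        / (S.card : ℝ) ^ (Fintype.card ((Fin 3 × Fin ℓ) × ZMod N))
      ≤ phi M1 M0 S D ^ (3 * ℓ - 1) := by
  obtain ⟨m, s⟩ := a
  have hS := eb_Spos hs
  unfold X2
  rw [card_avg S hs.Spos]
  rw [Finset.prod_congr rfl (fun j _ => eb_factor hs m s j), Finset.prod_mul_distrib,
    eb_ite_prod, if_pos (Finset.mem_univ _), eb_prodF hs m s]
  have h1 : ((S \ I m).card : ℝ) / S.card ≤ 1 := by
    rw [div_le_one hS]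
    exact_mod_cast Finset.card_le_card Finset.sdiff_subset
  have h2 : 0 ≤ phi M1 M0 S D ^ (3 * ℓ - 1) := pow_nonneg (eb_phi_nonneg hs) _
  exact mul_le_of_le_one_left h2 h1

theorem X_pair {N M1 M0 ℓ : ℕ} [NeZero N] {S : Finset σ} {D : Bool → Finset σ}
    {un : M → (Fin 3 × Fin ℓ) × ZMod N} {I : M → Finset σ} {code : M → Fin ℓ → ZMod N}
    (hs : Setup2 N M1 M0 ℓ S D un I code) (a b : M × ZMod N) (hab : b ≠ a) :
    ((X2 S (TT N M1 ℓ S D un code) (fun a => un a.1) (fun a => I a.1) a
        ∩ X2 S (TT N M1 ℓ S D un code) (fun a => un a.1) (fun a => I a.1) b).card : ℝ)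
        / (S.card : ℝ) ^ (Fintype.card ((Fin 3 × Fin ℓ) × ZMod N))
      ≤ ((D true ∩ D false).card : ℝ) / S.card := by
  obtain ⟨m, s⟩ := a
  obtain ⟨m', s'⟩ := b
  have hS := eb_Spos hs
  have hN := hs.hN
  have h0 := hs.hM0
  obtain ⟨j, hj⟩ := hs.hcode m m' s s' (Ne.symm hab)
  obtain ⟨u, hu⟩ := st_sep N M1 hs.hM1 (by omega) _ _ hj
  obtain ⟨c, hc, hc'⟩ : ∃ c : Fin 3, ((c, j) : Fin 3 × Fin ℓ) ≠ (un m).1 ∧
      ((c, j) : Fin 3 × Fin ℓ) ≠ (un m').1 := by
    have h3 : ∀ x y : Fin 3, ∃ c : Fin 3, c ≠ x ∧ c ≠ y := by decide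
    obtain ⟨c, h4, h5⟩ := h3 (un m).1.1 (un m').1.1
    exact ⟨c, fun h => h4 (by rw [← h]), fun h => h5 (by rw [← h])⟩
  set k : (Fin 3 × Fin ℓ) × ZMod N := ((c, j), u) with hk
  have hsub : X2 S (TT N M1 ℓ S D un code) (fun a => un a.1) (fun a => I a.1) (m, s)
        ∩ X2 S (TT N M1 ℓ S D un code) (fun a => un a.1) (fun a => I a.1) (m', s') ⊆
      Fintype.piFinset (fun i => if i = k then D true ∩ D false else S) := by
    have key : ∀ (n : M) (t : ZMod N) (W : (Fin 3 × Fin ℓ) × ZMod N → σ),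
        W ∈ X2 S (TT N M1 ℓ S D un code) (fun a => un a.1) (fun a => I a.1) (n, t) →
        ∀ i, W i ∈ (if i = un n then S \ I n else TT N M1 ℓ S D un code (n, t) i) := by
      intro n t W hW
      unfold X2 at hW
      exact Fintype.mem_piFinset.1 hW
    have key2 : ∀ (n : M) (t : ZMod N) (W : (Fin 3 × Fin ℓ) × ZMod N → σ),
        W ∈ X2 S (TT N M1 ℓ S D un code) (fun a => un a.1) (fun a => I a.1) (n, t) →
        ∀ i, i.1 ≠ (un n).1 → W i ∈ D (st N M1 (code n i.1.2 + t) i.2) := by
      intro n t W hW i hi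
      have h1 := key n t W hW i
      rw [if_neg (fun h => hi (by rw [h]))] at h1
      unfold TT at h1
      rw [if_neg hi] at h1
      exact h1
    have hTS : ∀ (n : M) (t : ZMod N) i, TT N M1 ℓ S D un code (n, t) i ⊆ S := by
      intro n t i
      unfold TT
      split_ifs
      · exact Finset.Subset.refl _
      · exact hs.subD _
    intro W hW
    rw [Finset.mem_inter] at hW
    rw [Fintype.mem_piFinset]
    intro i
    by_cases hi : i = k
    · rw [if_pos hi]
      have h1 := key2 m s W hW.1 k hc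
      have h2 := key2 m' s' W hW.2 k hc'
      have e1 : st N M1 (code m k.1.2 + s) k.2 ≠ st N M1 (code m' k.1.2 + s') k.2 := hu
      rw [hi, Finset.mem_inter]
      cases h3 : st N M1 (code m k.1.2 + s) k.2 <;> cases h4 : st N M1 (code m' k.1.2 + s') k.2
      · rw [h3, h4] at e1
        exact absurd rfl e1
      · rw [h3] at h1
        rw [h4] at h2
        exact ⟨h2, h1⟩
      · rw [h3] at h1
        rw [h4] at h2
        exact ⟨h1, h2⟩
      · rw [h3, h4] at e1
        exact absurd rfl e1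
    · rw [if_neg hi]
      have h1 := key m s W hW.1 i
      split_ifs at h1
      · exact (Finset.mem_sdiff.1 h1).1
      · exact hTS _ _ _ h1
  have h1 : ((X2 S (TT N M1 ℓ S D un code) (fun a => un a.1) (fun a => I a.1) (m, s)
        ∩ X2 S (TT N M1 ℓ S D un code) (fun a => un a.1) (fun a => I a.1) (m', s')).card : ℝ) ≤
      ((Fintype.piFinset (fun i => if i = k then D true ∩ D false else S)).card : ℝ) := by
    exact_mod_cast Finset.card_le_card hsub
  refine (div_le_div_of_nonneg_right h1 (pow_nonneg hS.le _)).trans (le_of_eq ?_)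
  rw [card_avg S hs.Spos, ← Finset.mul_prod_erase Finset.univ _ (Finset.mem_univ k), if_pos rfl,
    Finset.prod_congr rfl (g := fun _ => (1 : ℝ)), Finset.prod_const_one, mul_one]
  intro i hi
  rw [if_neg (Finset.ne_of_mem_erase hi), div_self hS.ne']

end Pool.Agent.H4.FQ
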