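import Pool.Agent.H4.FQ.EB

/-!
Module EC (about 120 lines): the engine estimate.
E := (Σ_{fam2} f(W k))/|S|^K ≤ bb - Σ_a (..) + N Σ_{a≠b} (..), bb = (Σ_S f)/|S|, t = M1 (av D true) + M0 (av D false), q_m = |S \ I m|/|S| ≤ 1,
φ' = φ^(3ℓ-1).  Split the operations m into un m = k, same group but ≠ k, other group:
Σ_a = Σ_{m: un m = k} N φ' (bb - (Σ_{I m} f)/|S|) + Σ_{m same, ≠ k} N φ' q_m bb + Σ_{m other} φ' q_m t.
So E ≤ bb (1 - N φ' (Q_k + Λ_1)) - φ' Λ_2 t + N φ' Σ_{m at k} (Σ_{I m} f)/|S| + N (N Q)^2 π, with Q_k + Λ_1 + Λ_2 ≤ Q, N φ' Q ≤ 1/2.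
bb ≤ -s/N + ε: bb (1 - x) ≤ -(s/N)(1-x) + ε (0 ≤ x ≤ 1, s ≥ 0, ε ≥ 0); -φ' Λ_2 t ≤ φ' Λ_2 (s + ε) and φ' Λ_2 ≤ 1; the s-terms sum to
-(s/N)(1 - N φ' (Q_k+Λ_1+Λ_2)) ≤ 0.
-/

set_option autoImplicit false

namespace Pool.Agent.H4.FQ

variable {σ M : Type} [DecidableEq σ] [Fintype M] [DecidableEq M]

/-- the final computation -/
private theorem ec_arith {bb x A B I s ε N Q : ℝ} (hN : 1 ≤ N) (hs0 : 0 ≤ s) (hε : 0 ≤ ε)
    (hx : 0 ≤ x) (hA : 0 ≤ A) (hB : 0 ≤ B) (hAB : A + B ≤ Q) (hxQ : 2 * x * Q ≤ 1)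
    (h1 : bb ≤ -s / N + ε) :
    bb - (x * A * bb - x * I - x / N * B * (s + ε)) ≤ 2 * ε + x * I := by
  have hN0 : 0 < N := by linarith
  have hxA : x * A ≤ x * Q := mul_le_mul_of_nonneg_left (by linarith) hx
  have hxB : x * B ≤ x * Q := mul_le_mul_of_nonneg_left (by linarith) hx
  have hxAB : x * (A + B) ≤ x * Q := mul_le_mul_of_nonneg_left hAB hx
  have h2 : (1 - x * A) * bb ≤ (1 - x * A) * (-s / N + ε) :=
    mul_le_mul_of_nonneg_left h1 (by linarith)
  have h3 : x / N * B ≤ 1 := by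
    rw [div_mul_eq_mul_div, div_le_one hN0]
    linarith
  have h4 : x / N * B * ε ≤ ε := by
    calc x / N * B * ε ≤ 1 * ε := mul_le_mul_of_nonneg_right h3 hε
      _ = ε := one_mul ε
  have h5 : 0 ≤ x * A * ε := by positivity
  have h6 : 0 ≤ s / N * (1 - x * (A + B)) := mul_nonneg (by positivity) (by linarith)
  have h7 : (1 - x * A) * (-s / N + ε) + x / N * B * (s + ε) =
      - (s / N * (1 - x * (A + B))) + ε - x * A * ε + x / N * B * ε := by
    field_simp
    ring
  have h8 : bb - (x * A * bb - x * I - x / N * B * (s + ε)) =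
      (1 - x * A) * bb + x * I + x / N * B * (s + ε) := by ring
  rw [h8]
  linarith

private theorem ec_sub {N M1 M0 ℓ : ℕ} [NeZero N] {S : Finset σ} {D : Bool → Finset σ}
    {un : M → (Fin 3 × Fin ℓ) × ZMod N} {I : M → Finset σ} {code : M → Fin ℓ → ZMod N}
    (hs : Setup2 N M1 M0 ℓ S D un I code) (a : M × ZMod N) (j : (Fin 3 × Fin ℓ) × ZMod N) :
    TT N M1 ℓ S D un code a j ⊆ S := by
  unfold TT
  split_ifs with h
  · exact Finset.Subset.refl S
  · exact hs.subD _

omit [DecidableEq σ] in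
private theorem ec_phi {M1 M0 ℓ : ℕ} {S : Finset σ} {D : Bool → Finset σ} :
    0 ≤ phi M1 M0 S D ^ (3 * ℓ - 1) := by
  unfold phi theta
  positivity

theorem engine2 {N M1 M0 ℓ : ℕ} [NeZero N] {S : Finset σ} {D : Bool → Finset σ}
    {un : M → (Fin 3 × Fin ℓ) × ZMod N} {I : M → Finset σ} {code : M → Fin ℓ → ZMod N}
    (hs : Setup2 N M1 M0 ℓ S D un I code) (f : σ → ℝ) (hf : ∀ w, |f w| ≤ N)
    (k : (Fin 3 × Fin ℓ) × ZMod N) (s ε γ π : ℝ) (hs0 : 0 ≤ s) (hε : 0 ≤ ε)
    (h1 : (∑ w ∈ S, f w) / S.card ≤ -s / N + ε)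
    (h2 : -s - ε ≤ M1 * ((∑ w ∈ D true, f w) / (D true).card)
              + M0 * ((∑ w ∈ D false, f w) / (D false).card))
    (h3 : (∑ m ∈ Finset.univ.filter (fun m => un m = k), ∑ w ∈ I m, f w) / S.card ≤ -γ)
    (h4 : ((D true ∩ D false).card : ℝ) / S.card ≤ π)
    (h5 : 2 * N * (Fintype.card M : ℝ) * phi M1 M0 S D ^ (3 * ℓ - 1) ≤ 1) :
    (∑ W ∈ fam2 S (TT N M1 ℓ S D un code) (fun a : M × ZMod N => un a.1) (fun a => I a.1),
        f (W k)) / (S.card : ℝ) ^ (Fintype.card ((Fin 3 × Fin ℓ) × ZMod N))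
      ≤ 2 * ε - N * phi M1 M0 S D ^ (3 * ℓ - 1) * γ
        + N * (N * (Fintype.card M : ℝ)) ^ 2 * π := by
  have hNpos : 0 < N := by
    have := hs.hN
    have := hs.hM1
    omega
  have hN1 : (1 : ℝ) ≤ N := by exact_mod_cast hNpos
  have hN0 : (0 : ℝ) < N := by linarith
  have hSpos : (0 : ℝ) < S.card := by exact_mod_cast hs.Spos
  set n : ℝ := (S.card : ℝ) ^ (Fintype.card ((Fin 3 × Fin ℓ) × ZMod N)) with hn
  set φ' : ℝ := phi M1 M0 S D ^ (3 * ℓ - 1) with hφ'
  have hφ0 : 0 ≤ φ' := ec_phi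
  set bb : ℝ := (∑ w ∈ S, f w) / S.card with hbb
  set t : ℝ := M1 * ((∑ w ∈ D true, f w) / (D true).card)
              + M0 * ((∑ w ∈ D false, f w) / (D false).card) with ht
  have hπ : 0 ≤ π := le_trans (by positivity) h4
  have hcardZ : Fintype.card (ZMod N) = N := ZMod.card N
  have hmain := fam2_sum hs.Spos (T := TT N M1 ℓ S D un code)
    (un := fun a : M × ZMod N => un a.1) (I := fun a => I a.1) (ec_sub hs) f N hN0 hf k
  rw [← hn] at hmain
  -- second order terms
  have hsec : ∑ a : M × ZMod N, ∑ b ∈ Finset.univ.filter (fun b => b ≠ a),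
      ((X2 S (TT N M1 ℓ S D un code) (fun a : M × ZMod N => un a.1) (fun a => I a.1) a ∩
        X2 S (TT N M1 ℓ S D un code) (fun a : M × ZMod N => un a.1) (fun a => I a.1) b).card : ℝ)
        / n ≤ (N * (Fintype.card M : ℝ)) ^ 2 * π := by
    have e1 : ∀ a : M × ZMod N, ∑ b ∈ Finset.univ.filter (fun b => b ≠ a),
        ((X2 S (TT N M1 ℓ S D un code) (fun a : M × ZMod N => un a.1) (fun a => I a.1) a ∩
          X2 S (TT N M1 ℓ S D un code) (fun a : M × ZMod N => un a.1) (fun a => I a.1) b).card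
            : ℝ) / n ≤ (N * (Fintype.card M : ℝ)) * π := by
      intro a
      have e2 := Finset.sum_le_sum fun b (hb : b ∈ Finset.univ.filter
        (fun b : M × ZMod N => b ≠ a)) => (X_pair hs a b (Finset.mem_filter.1 hb).2).trans h4
      refine e2.trans ?_
      rw [Finset.sum_const, nsmul_eq_mul]
      refine mul_le_mul_of_nonneg_right ?_ hπ
      have e3 : (Finset.univ.filter (fun b : M × ZMod N => b ≠ a)).card ≤
          Fintype.card (M × ZMod N) := Finset.card_le_univ _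
      rw [Fintype.card_prod, hcardZ] at e3
      have e4 : ((Finset.univ.filter (fun b : M × ZMod N => b ≠ a)).card : ℝ) ≤
          ((Fintype.card M * N : ℕ) : ℝ) := by exact_mod_cast e3
      push_cast at e4
      linarith
    have e2 := Finset.sum_le_sum fun a (_ : a ∈ (Finset.univ : Finset (M × ZMod N))) => e1 a
    rw [Finset.sum_const, Finset.card_univ, Fintype.card_prod, hcardZ, nsmul_eq_mul] at e2
    refine e2.trans (le_of_eq ?_)
    push_cast
    ring
  -- first order terms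
  set q : M → ℝ := fun m => ((S \ I m).card : ℝ) / S.card with hq
  have hq0 : ∀ m, 0 ≤ q m := fun m => by positivity
  have hq1 : ∀ m, q m ≤ 1 := by
    intro m
    rw [hq]
    simp only
    rw [div_le_one hSpos]
    exact_mod_cast Finset.card_le_card Finset.sdiff_subset
  set α : M → ℝ := fun m => if un m = k then 1 else if k.1 = (un m).1 then q m else 0 with hα
  set β : M → ℝ := fun m => if un m = k then 0 else if k.1 = (un m).1 then 0 else q m with hβ
  set J : M → ℝ := fun m => if un m = k then (∑ w ∈ I m, f w) / S.card else 0 with hJ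
  have hα0 : ∀ m, 0 ≤ α m := by
    intro m
    simp only [hα]
    split_ifs
    · exact zero_le_one
    · exact hq0 m
    · exact le_refl 0
  have hβ0 : ∀ m, 0 ≤ β m := by
    intro m
    simp only [hβ]
    split_ifs
    · exact le_refl 0
    · exact le_refl 0
    · exact hq0 m
  have hαβ : ∀ m, α m + β m ≤ 1 := by
    intro m
    simp only [hα, hβ]
    have := hq1 m
    split_ifs <;> linarith
  have hY : ∀ m : M, N * φ' * α m * bb - N * φ' * J m - N * φ' / N * β m * (s + ε) ≤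
      ∑ z : ZMod N, (∑ W ∈ X2 S (TT N M1 ℓ S D un code) (fun a : M × ZMod N => un a.1)
        (fun a => I a.1) (m, z), f (W k)) / n := by
    intro m
    by_cases hm : un m = k
    · have e1 : ∀ z : ZMod N, (∑ W ∈ X2 S (TT N M1 ℓ S D un code)
          (fun a : M × ZMod N => un a.1) (fun a => I a.1) (m, z), f (W k)) / n =
          φ' * ((∑ w ∈ S \ I m, f w) / S.card) := by
        intro z
        rw [← hm]
        exact X_self hs f m z
      rw [Finset.sum_congr rfl fun z _ => e1 z, Finset.sum_const, Finset.card_univ, hcardZ,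
        nsmul_eq_mul]
      have e2 : (∑ w ∈ S \ I m, f w) / S.card = bb - (∑ w ∈ I m, f w) / S.card := by
        have := Finset.sum_sdiff (f := f) (hs.subI m)
        rw [hbb, ← this]
        ring
      rw [e2]
      simp only [hα, hβ, hJ, if_pos hm]
      refine le_of_eq ?_
      ring
    · by_cases hk1 : k.1 = (un m).1
      · have e1 : ∀ z : ZMod N, (∑ W ∈ X2 S (TT N M1 ℓ S D un code)
            (fun a : M × ZMod N => un a.1) (fun a => I a.1) (m, z), f (W k)) / n =
            φ' * q m * bb := fun z => X_same hs f m z k (Ne.symm hm) hk1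
        rw [Finset.sum_congr rfl fun z _ => e1 z, Finset.sum_const, Finset.card_univ, hcardZ,
          nsmul_eq_mul]
        simp only [hα, hβ, hJ, if_neg hm, if_pos hk1]
        refine le_of_eq ?_
        ring
      · have e1 : ∑ z : ZMod N, (∑ W ∈ X2 S (TT N M1 ℓ S D un code)
            (fun a : M × ZMod N => un a.1) (fun a => I a.1) (m, z), f (W k)) / n =
            φ' * q m * t := X_other hs f m k hk1
        rw [e1]
        simp only [hα, hβ, hJ, if_neg hm, if_neg hk1]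
        have e2 : N * φ' / N = φ' := by field_simp
        rw [e2]
        have e3 : φ' * q m * (-s - ε) ≤ φ' * q m * t :=
          mul_le_mul_of_nonneg_left h2 (mul_nonneg hφ0 (hq0 m))
        linarith
  have hfirst : N * φ' * (∑ m, α m) * bb - N * φ' * (∑ m, J m) -
      N * φ' / N * (∑ m, β m) * (s + ε) ≤
      ∑ a : M × ZMod N, (∑ W ∈ X2 S (TT N M1 ℓ S D un code) (fun a : M × ZMod N => un a.1)
        (fun a => I a.1) a, f (W k)) / n := by
    rw [Fintype.sum_prod_type]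
    refine le_trans (le_of_eq ?_) (Finset.sum_le_sum fun m _ => hY m)
    simp only [Finset.sum_sub_distrib, Finset.mul_sum, Finset.sum_mul]
  have hJsum : ∑ m, J m ≤ -γ := by
    have e1 : ∑ m, J m =
        (∑ m ∈ Finset.univ.filter (fun m => un m = k), ∑ w ∈ I m, f w) / S.card := by
      rw [Finset.sum_div, Finset.sum_filter]
    rw [e1]
    exact h3
  have hsumab : ∑ m, α m + ∑ m, β m ≤ Fintype.card M := by
    rw [← Finset.sum_add_distrib]
    calc ∑ m, (α m + β m) ≤ ∑ _m : M, (1 : ℝ) := Finset.sum_le_sum fun m _ => hαβ m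
      _ = Fintype.card M := by rw [Finset.sum_const, Finset.card_univ, nsmul_eq_mul, mul_one]
  have hx0 : 0 ≤ N * φ' := by positivity
  have hfin := ec_arith (bb := bb) (x := N * φ') (A := ∑ m, α m) (B := ∑ m, β m)
    (I := ∑ m, J m) (s := s) (ε := ε) (N := N) (Q := Fintype.card M) hN1 hs0 hε hx0
    (Finset.sum_nonneg fun m _ => hα0 m) (Finset.sum_nonneg fun m _ => hβ0 m) hsumab
    (by linarith) h1
  have hJ2 : N * φ' * (∑ m, J m) ≤ N * φ' * (-γ) := mul_le_mul_of_nonneg_left hJsum hx0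
  have hsec2 := mul_le_mul_of_nonneg_left hsec hN0.le
  linarith

theorem engine2_card {N M1 M0 ℓ : ℕ} [NeZero N] {S : Finset σ} {D : Bool → Finset σ}
    {un : M → (Fin 3 × Fin ℓ) × ZMod N} {I : M → Finset σ} {code : M → Fin ℓ → ZMod N}
    (hs : Setup2 N M1 M0 ℓ S D un I code) (hS2 : 2 ≤ S.card)
    (h5 : 2 * N * (Fintype.card M : ℝ) * phi M1 M0 S D ^ (3 * ℓ - 1) ≤ 1) :
    2 ≤ (fam2 S (TT N M1 ℓ S D un code) (fun a : M × ZMod N => un a.1)
          (fun a => I a.1)).card := by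
  have hcardZ : Fintype.card (ZMod N) = N := ZMod.card N
  have hSpos : (0 : ℝ) < S.card := by exact_mod_cast hs.Spos
  have hmain := fam2_card hs.Spos (T := TT N M1 ℓ S D un code)
    (un := fun a : M × ZMod N => un a.1) (I := fun a => I a.1) (ec_sub hs)
  set n : ℝ := (S.card : ℝ) ^ (Fintype.card ((Fin 3 × Fin ℓ) × ZMod N)) with hn
  set φ' : ℝ := phi M1 M0 S D ^ (3 * ℓ - 1) with hφ'
  have e1 : ∑ a : M × ZMod N, ((X2 S (TT N M1 ℓ S D un code) (fun a : M × ZMod N => un a.1)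
      (fun a => I a.1) a).card : ℝ) / n ≤ 1 / 2 := by
    have e2 := Finset.sum_le_sum fun a (_ : a ∈ (Finset.univ : Finset (M × ZMod N))) =>
      X_card hs a
    refine e2.trans ?_
    rw [Finset.sum_const, Finset.card_univ, Fintype.card_prod, hcardZ, nsmul_eq_mul]
    push_cast
    linarith
  have hN2 : 2 ≤ N := by
    have := hs.hN
    have := hs.hM1
    have := hs.hM0
    omega
  have hcK : 2 ≤ Fintype.card ((Fin 3 × Fin ℓ) × ZMod N) := by
    rw [Fintype.card_prod, Fintype.card_prod, hcardZ, Fintype.card_fin, Fintype.card_fin]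
    have := hs.hl
    nlinarith
  have hn4 : (4 : ℝ) ≤ n := by
    have e3 : (4 : ℝ) ≤ 2 ^ (Fintype.card ((Fin 3 × Fin ℓ) × ZMod N)) := by
      calc (4 : ℝ) = 2 ^ 2 := by norm_num
        _ ≤ 2 ^ (Fintype.card ((Fin 3 × Fin ℓ) × ZMod N)) :=
          pow_le_pow_right₀ (by norm_num) hcK
    refine e3.trans ?_
    rw [hn]
    exact pow_le_pow_left₀ (by norm_num) (by exact_mod_cast hS2) _
  have e4 : (1 : ℝ) / 2 ≤ ((fam2 S (TT N M1 ℓ S D un code) (fun a : M × ZMod N => un a.1)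
      (fun a => I a.1)).card : ℝ) / n := by linarith
  rw [le_div_iff₀ (by linarith)] at e4
  have e5 : (2 : ℝ) ≤ ((fam2 S (TT N M1 ℓ S D un code) (fun a : M × ZMod N => un a.1)
      (fun a => I a.1)).card : ℝ) := by linarith
  exact_mod_cast e5

end Pool.Agent.H4.FQ
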