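import Pool.Agent.H4.FQ.Defs
import Pool.Agent.H4.FP.Frk

/-!
Module FRK2 (about 100 lines): copy of H4/FP/Frk.lean for FranklAt.
`frankl_pi_at`: exactly the proof of `frankl_pi` (H4/FP/Frk.lean), with `a * card ≤ n * freq`.
`tight_at`: B union-closed, nonempty universe, n freq B x ≤ a |B| for all x, FranklAt a n, 0 < a.
 Frankl gives z with a|B| ≤ n freq, so equality. If ∅ ∉ B then insert ∅ B has |B|+1 members and the same frequencies:
 a (|B|+1) ≤ n freq ≤ a |B|, contradiction.
-/

set_option autoImplicit false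

namespace Pool.Agent.H4.FQ

open Pool.Agent.H4.FP

theorem frankl_pi_at {a n : ℕ} (hF : FranklAt a n) {K D : Type} [Fintype K] [DecidableEq K]
    [Fintype D] [DecidableEq D] (F : Finset (K → D → Finset ℕ))
    (hcl : ∀ u ∈ F, ∀ v ∈ F, (fun k i => u k i ∪ v k i) ∈ F) (hne : 2 ≤ F.card) :
    ∃ k i x, (∃ w ∈ F, x ∈ w k i) ∧ a * F.card ≤ n * (F.filter (fun w => x ∈ w k i)).card := by
  classical
  obtain ⟨c⟩ : Nonempty (K × D × ℕ ↪ ℕ) := by
    have : Countable (K × D × ℕ) := inferInstance
    exact nonempty_embedding_nat _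
  set A := F.image (frkSupp c) with hA
  have hcard : A.card = F.card := Finset.card_image_of_injective _ (frkSupp_inj c)
  have hUC : UC A := by
    intro X hX Y hY
    obtain ⟨u, hu, rfl⟩ := Finset.mem_image.1 hX
    obtain ⟨v, hv, rfl⟩ := Finset.mem_image.1 hY
    rw [← frkSupp_union]
    exact Finset.mem_image_of_mem _ (hcl u hu v hv)
  have hex : ∃ X ∈ A, X.Nonempty := by
    by_contra hcon
    push Not at hcon
    have h1 : A ⊆ {∅} := by
      intro X hX
      rw [Finset.mem_singleton]
      exact Finset.not_nonempty_iff_eq_empty.1 (by simpa using hcon X hX)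
    have h2 := Finset.card_le_card h1
    rw [Finset.card_singleton] at h2
    omega
  obtain ⟨e, he, hle⟩ := hF A hUC hex
  obtain ⟨S, hS, heS⟩ : ∃ S ∈ A, e ∈ S := by
    rw [Finset.mem_sup] at he
    exact he
  obtain ⟨w, hw, rfl⟩ := Finset.mem_image.1 hS
  obtain ⟨k, i, x, hx, rfl⟩ := (mem_frkSupp c w e).1 heS
  refine ⟨k, i, x, ⟨w, hw, hx⟩, ?_⟩
  have h3 : freq A (c (k, i, x)) = (F.filter (fun w => x ∈ w k i)).card := by
    unfold freq
    rw [hA, Finset.filter_image, Finset.card_image_of_injective _ (frkSupp_inj c)]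
    congr 1
    refine Finset.filter_congr fun w _ => ?_
    rw [mem_frkSupp_code]
  rw [← hcard, ← h3]
  exact hle

theorem tight_at {a n : ℕ} (ha : 0 < a) (hF : FranklAt a n) (B : Finset (Finset ℕ)) (hB : UC B)
    (hU : (B.sup id).Nonempty) (hf : ∀ x, n * freq B x ≤ a * B.card) :
    ∅ ∈ B ∧ ∃ z ∈ B.sup id, n * freq B z = a * B.card := by
  classical
  have hex : ∃ X ∈ B, X.Nonempty := by
    obtain ⟨x, hx⟩ := hU
    rw [Finset.mem_sup] at hx
    obtain ⟨S, hS, hxS⟩ := hx
    exact ⟨S, hS, x, hxS⟩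
  constructor
  · by_contra hcon
    have hUC : UC (insert ∅ B) := by
      intro X hX Y hY
      rw [Finset.mem_insert] at hX hY ⊢
      rcases hX with rfl | hX <;> rcases hY with rfl | hY
      · left
        simp
      · right
        simpa using hY
      · right
        simpa using hX
      · exact Or.inr (hB X hX Y hY)
    obtain ⟨X, hX, hXne⟩ := hex
    obtain ⟨x, hx, hle⟩ := hF (insert ∅ B) hUC ⟨X, Finset.mem_insert_of_mem hX, hXne⟩
    rw [Finset.card_insert_of_notMem hcon] at hle
    have h1 : freq (insert ∅ B) x = freq B x := by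
      unfold freq
      rw [Finset.filter_insert]
      simp
    rw [h1] at hle
    have := hf x
    have h2 : a * (B.card + 1) = a * B.card + a := by ring
    omega
  · obtain ⟨z, hz, hle⟩ := hF B hB hex
    exact ⟨z, hz, le_antisymm (hf z) hle⟩

end Pool.Agent.H4.FQ
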