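import Pool.Agent.H4.FQ.ND2
import Pool.Agent.H4.FP.Main

/-!
Module MIN (about 120 lines): the theorem on minimisers.
`no_small`: FranklAt p q, 0 < p, 2 p < q: there is no union-closed B with nonempty universe and q freq B x ≤ p |B| for all x.
 Strong induction on |B.sup id|.  tight_at: ∅ ∈ B and z ∈ B.sup id with q freq B z = p |B|.  M1 = freq B z ≥ 1, M0 = #{Z : z ∉ Z}, M1 + M0 = |B| =: N,
 q M1 = p N, so M1 < M0 (as 2 p < q), freq B x ≤ M1 for all x (q freq B x ≤ p N = q M1), FranklAt M1 N (multiply: p |A| ≤ q freq gives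
 q M1 |A| = p N |A| ≤ q N freq, cancel q).  C = B.filter (z ∉ ·): good_lt with V = B.filter (y ∈ ·): (f_y - f_yz) M1 ≤ f_yz M0, so
 (f_y - f_yz) N ≤ f_y M0 ≤ M1 M0, freq C y = f_y - f_yz, |C| = M0: q freq C y N ≤ q M1 M0 = p N M0, so q freq C y ≤ p |C|.
 If C.sup id nonempty: induction (z ∉ C.sup id).  If C.sup id = ∅ then C ⊆ {∅}, M0 ≤ 1 ≤ M1, contradiction.
`minimisers`: A separating union-closed with a nonempty member, and for every union-closed B with a nonempty member some x ∈ B.sup id has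
 freq A y * |B| ≤ freq B x * |A| for all y ∈ A.sup id.  Let p = max frequency of A (p = freq A y0, y0 ∈ A.sup id, p > 0), q = |A|: FranklAt p q holds.
 B = {∅,{0}} gives 2 p ≤ q.  If 2 p < q: `no_small` for A itself.  If 2 p = q: FranklAt p q gives FP.Frankl (p |B| ≤ 2 p freq, cancel p), so FP.frankl_poonen and
 no y with 2 freq A y > |A| force A = powerset.
-/

set_option autoImplicit false

namespace Pool.Agent.H4.FQ

open Pool.Agent.H4.FP

theorem MIN_mem_sup (A : Finset (Finset ℕ)) (x : ℕ) : x ∈ A.sup id ↔ ∃ Z ∈ A, x ∈ Z := by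
  rw [Finset.mem_sup]
  rfl

theorem MIN_card_split (B : Finset (Finset ℕ)) (z : ℕ) :
    (B.filter (fun Z => z ∈ Z)).card + (B.filter (fun Z => z ∉ Z)).card = B.card :=
  Finset.card_filter_add_card_filter_not _

theorem MIN_num {q p a b M1 M0 : ℕ} (hq : 0 < q) (hM1 : 0 < M1) (h1 : a * M1 ≤ b * M0)
    (h2 : a + b ≤ M1) (h3 : q * M1 = p * (M1 + M0)) : q * a ≤ p * M0 := by
  have hN : 0 < M1 + M0 := by omega
  have h4 : a * (M1 + M0) ≤ M1 * M0 := by nlinarith
  have h5 : (M1 + M0) * (q * a) ≤ (M1 + M0) * (p * M0) := by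
    calc (M1 + M0) * (q * a) = q * (a * (M1 + M0)) := by ring
      _ ≤ q * (M1 * M0) := Nat.mul_le_mul_left _ h4
      _ = (q * M1) * M0 := by ring
      _ = (M1 + M0) * (p * M0) := by rw [h3]; ring
  exact Nat.le_of_mul_le_mul_left h5 hN

theorem MIN_franklAt {p q M1 M0 : ℕ} (hq : 0 < q) (hF : FranklAt p q)
    (h3 : q * M1 = p * (M1 + M0)) : FranklAt M1 (M1 + M0) := by
  intro A hA hne
  obtain ⟨x, hx, h⟩ := hF A hA hne
  refine ⟨x, hx, ?_⟩
  have h5 : q * (M1 * A.card) ≤ q * ((M1 + M0) * freq A x) := by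
    calc q * (M1 * A.card) = (q * M1) * A.card := by ring
      _ = (M1 + M0) * (p * A.card) := by rw [h3]; ring
      _ ≤ (M1 + M0) * (q * freq A x) := Nat.mul_le_mul_left _ h
      _ = q * ((M1 + M0) * freq A x) := by ring
  exact Nat.le_of_mul_le_mul_left h5 hq

theorem no_small {p q : ℕ} (hp : 0 < p) (hpq : 2 * p < q) (hF : FranklAt p q)
    (B : Finset (Finset ℕ)) (hB : UC B) (hU : (B.sup id).Nonempty)
    (hf : ∀ x, q * freq B x ≤ p * B.card) : False := by
  have hq : 0 < q := by omega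
  induction h : (B.sup id).card using Nat.strong_induction_on generalizing B with
  | _ n ih =>
    obtain ⟨hemp, z, hz, hzt⟩ := tight_at hp hF B hB hU hf
    obtain ⟨Z, hZB, hzZ⟩ := (MIN_mem_sup B z).1 hz
    have hsplit := MIN_card_split B z
    set M1 := (B.filter (fun Z => z ∈ Z)).card with hM1
    set M0 := (B.filter (fun Z => z ∉ Z)).card with hM0
    have hfz : freq B z = M1 := rfl
    have hM1pos : 0 < M1 := Finset.card_pos.2 ⟨Z, Finset.mem_filter.2 ⟨hZB, hzZ⟩⟩
    have h3 : q * M1 = p * (M1 + M0) := by rw [hsplit]; exact hzt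
    have hlt : M1 < M0 := by
      by_contra hcon
      push Not at hcon
      have e1 : p * (M1 + M0) ≤ 2 * p * M1 := by nlinarith
      have e2 : 2 * p * M1 < q * M1 := Nat.mul_lt_mul_of_pos_right hpq hM1pos
      omega
    have hfM : ∀ x, freq B x ≤ M1 := by
      intro x
      have e1 := hf x
      rw [← hzt, hfz] at e1
      exact Nat.le_of_mul_le_mul_left e1 hq
    have hF' : FranklAt M1 (M1 + M0) := MIN_franklAt hq hF h3
    have hCUC : UC (B.filter (fun Z => z ∉ Z)) := by
      intro X hX Y hY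
      rw [Finset.mem_filter] at hX hY ⊢
      refine ⟨hB X hX.1 Y hY.1, ?_⟩
      rw [Finset.mem_union]
      push Not
      exact ⟨hX.2, hY.2⟩
    have hCf : ∀ y, q * freq (B.filter (fun Z => z ∉ Z)) y ≤
        p * (B.filter (fun Z => z ∉ Z)).card := by
      intro y
      have g := good_lt B hB z M1 M0 hM1pos hlt rfl rfl hF' hfM hemp
        (B.filter (fun Z => y ∈ Z)) (Finset.filter_subset _ _)
        (fun X hX Y hY hXY => Finset.mem_filter.2 ⟨hY, hXY (Finset.mem_filter.1 hX).2⟩)
      have e1 : freq (B.filter (fun Z => z ∉ Z)) y =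
          ((B.filter (fun Z => y ∈ Z)).filter (fun Z => z ∉ Z)).card := by
        unfold freq
        rw [Finset.filter_filter, Finset.filter_filter]
        congr 1
        refine Finset.filter_congr fun Z _ => and_comm
      have e2 := MIN_card_split (B.filter (fun Z => y ∈ Z)) z
      have e3 : (B.filter (fun Z => y ∈ Z)).card ≤ M1 := hfM y
      rw [e1]
      exact MIN_num hq hM1pos g (by omega) h3
    by_cases hCU : ((B.filter (fun Z => z ∉ Z)).sup id).Nonempty
    · refine ih _ ?_ (B.filter (fun Z => z ∉ Z)) hCUC hCU hCf rfl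
      rw [← h]
      apply Finset.card_lt_card
      rw [Finset.ssubset_iff_of_subset]
      · refine ⟨z, hz, ?_⟩
        intro hcon
        obtain ⟨Y, hY, hzY⟩ := (MIN_mem_sup _ z).1 hcon
        exact (Finset.mem_filter.1 hY).2 hzY
      · intro y hy
        obtain ⟨Y, hY, hyY⟩ := (MIN_mem_sup _ y).1 hy
        exact (MIN_mem_sup B y).2 ⟨Y, (Finset.mem_filter.1 hY).1, hyY⟩
    · have h1 : B.filter (fun Z => z ∉ Z) ⊆ {∅} := by
        intro X hX
        rw [Finset.mem_singleton]
        rw [← Finset.not_nonempty_iff_eq_empty]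
        rintro ⟨x, hx⟩
        exact hCU ⟨x, (MIN_mem_sup _ x).2 ⟨X, hX, hx⟩⟩
      have h2 := Finset.card_le_card h1
      rw [Finset.card_singleton] at h2
      omega

theorem minimisers (A : Finset (Finset ℕ)) (hA : UC A) (hsep : Sep A)
    (hne : ∃ X ∈ A, X.Nonempty)
    (hmin : ∀ B : Finset (Finset ℕ), UC B → (∃ X ∈ B, X.Nonempty) →
      ∃ x ∈ B.sup id, ∀ y ∈ A.sup id, freq A y * B.card ≤ freq B x * A.card) :
    A = (A.sup id).powerset := by
  have hUne : (A.sup id).Nonempty := by
    obtain ⟨X, hX, x, hx⟩ := hne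
    exact ⟨x, (MIN_mem_sup A x).2 ⟨X, hX, hx⟩⟩
  obtain ⟨y0, hy0, hmax⟩ := Finset.exists_max_image (A.sup id) (freq A) hUne
  have hp : 0 < freq A y0 := by
    obtain ⟨Z, hZ, hyZ⟩ := (MIN_mem_sup A y0).1 hy0
    exact Finset.card_pos.2 ⟨Z, Finset.mem_filter.2 ⟨hZ, hyZ⟩⟩
  have hfre : ∀ x, freq A x ≤ freq A y0 := by
    intro x
    by_cases hx : x ∈ A.sup id
    · exact hmax x hx
    · have : freq A x = 0 := by
        unfold freq
        rw [Finset.card_eq_zero, Finset.filter_eq_empty_iff]
        intro Z hZ hxZ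
        exact hx ((MIN_mem_sup A x).2 ⟨Z, hZ, hxZ⟩)
      omega
  have hF : FranklAt (freq A y0) A.card := by
    intro B hB hBne
    obtain ⟨x, hx, h⟩ := hmin B hB hBne
    refine ⟨x, hx, ?_⟩
    have := h y0 hy0
    rw [mul_comm A.card]
    exact this
  have h2pq : 2 * freq A y0 ≤ A.card := by
    have hB : UC ({∅, {0}} : Finset (Finset ℕ)) := by
      intro X hX Y hY
      simp only [Finset.mem_insert, Finset.mem_singleton] at hX hY ⊢
      rcases hX with rfl | rfl <;> rcases hY with rfl | rfl <;> simp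
    obtain ⟨x, hx, h⟩ := hF {∅, {0}} hB ⟨{0}, by simp, by simp⟩
    have hc : ({∅, {0}} : Finset (Finset ℕ)).card = 2 := by decide
    have hfr : freq ({∅, {0}} : Finset (Finset ℕ)) x ≤ 1 := by
      unfold freq
      have : ({∅, {0}} : Finset (Finset ℕ)).filter (fun S => x ∈ S) ⊆ {{0}} := by
        intro S hS
        rw [Finset.mem_filter] at hS
        simp only [Finset.mem_insert, Finset.mem_singleton] at hS ⊢
        rcases hS.1 with h | h
        · rw [h] at hS
          exact absurd hS.2 (Finset.notMem_empty x)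
        · exact h
      exact le_trans (Finset.card_le_card this) (by simp)
    rw [hc] at h
    have h5 : A.card * freq ({∅, {0}} : Finset (Finset ℕ)) x ≤ A.card * 1 :=
      Nat.mul_le_mul_left _ hfr
    omega
  rcases Nat.lt_or_ge (2 * freq A y0) A.card with hlt | hge
  · exfalso
    refine no_small hp hlt hF A hA hUne ?_
    intro x
    rw [mul_comm]
    exact Nat.mul_le_mul_right _ (hfre x)
  · have heq : 2 * freq A y0 = A.card := le_antisymm h2pq hge
    have hFr : Frankl := by
      intro B hB hBne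
      obtain ⟨x, hx, h⟩ := hF B hB hBne
      refine ⟨x, hx, ?_⟩
      rw [← heq] at h
      have h5 : freq A y0 * B.card ≤ freq A y0 * (2 * freq B x) := by
        calc freq A y0 * B.card ≤ 2 * freq A y0 * freq B x := h
          _ = freq A y0 * (2 * freq B x) := by ring
      exact Nat.le_of_mul_le_mul_left h5 hp
    by_contra hpow
    obtain ⟨X, hX, _⟩ := hne
    obtain ⟨x, hx, h⟩ := frankl_poonen hFr A ⟨X, hX⟩ hA hsep hpow
    have := hfre x
    omega

end Pool.Agent.H4.FQ
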