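import Pool.Agent.H4.FQ.MIN

/-!
Module MAIN2: every separating union-closed family that is not a power set can be improved.
-/

set_option autoImplicit false

namespace Pool.Agent.H4.FQ

open Pool.Agent.H4.FP

theorem improve (A : Finset (Finset ℕ)) (hA : UC A) (hsep : Sep A)
    (hU : (A.sup id).Nonempty) (hpow : A ≠ (A.sup id).powerset) :
    ∃ B : Finset (Finset ℕ), UC B ∧ (∃ X ∈ B, X.Nonempty) ∧
      ∀ x ∈ B.sup id, ∃ y ∈ A.sup id, freq B x * A.card < freq A y * B.card := by
  by_contra hcon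
  apply hpow
  refine minimisers A hA hsep ?_ ?_
  · obtain ⟨x, hx⟩ := hU
    rw [Finset.mem_sup] at hx
    obtain ⟨X, hX, hxX⟩ := hx
    exact ⟨X, hX, ⟨x, hxX⟩⟩
  · intro B hB hne
    by_contra h2
    apply hcon
    refine ⟨B, hB, hne, ?_⟩
    intro x hx
    by_contra h3
    apply h2
    refine ⟨x, hx, ?_⟩
    intro y hy
    by_contra h4
    exact h3 ⟨y, hy, not_le.mp h4⟩

end Pool.Agent.H4.FQ
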