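import Mathlib

/-!
Module NUM (about 200 lines): the numbers (pure real inequalities).
Data: M1, M0 reals with 1 ≤ M1 < M0, N = M1 + M0, r ∈ (0,1), q0 = M0^(d-1), q1 = M1^(d-1), ρ = q0 - L q1 with 0 ≤ ρ ≤ q1.
|Off| = M0 q0, |On| = L M1 q1 = M1 (q0 - ρ), |S| = N q0 - M1 ρ ≤ N q0, |S| ≥ M0 q0.
D1: |D1| = |On| + α - β, 0 ≤ α ≤ rd M0 q0, 0 ≤ β ≤ rd |On|; ΣD1 = |On| A1 + δ, |δ| ≤ N (α + β).
Hypotheses on the parameters: rd ≤ 1/8, q1/q0 ≤ 1/2 (u := q1/q0).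
(a) b = (M0 q0 A0 + |On| A1)/|S| ≤ -s/N + N M1 u/M0, s = -(M0 A0 + M1 A1) ≥ 0: numerator = -q0 s - M1 ρ A1.  (we use the bound N u)
(b) M1 ΣD1/|D1| + M0 A0 ≥ -s - 8 N^2 rd: ΣD1/|D1| - A1 = (δ - A1 (α-β))/|D1|, |..| ≤ 2N(α+β)/|D1|, |D1| ≥ |On|/2 ≥ M1 q0/4, α+β ≤ rd |S| ≤ rd N q0.
(c) θ1 = |D1|/|S| ≥ 1/(4N), θ0 = M0 q0/|S| ≥ 1/N, θ1, θ0 ≤ 1, θ1 + θ0 ≤ 1 + rd; so φ = θ1^M1 θ0^M0 ≤ θ1 θ0 ≤ ((1+rd)/2)^2 ≤ 1/3 and φ ≥ (1/(4N))^N.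
-/

set_option autoImplicit false

namespace Pool.Agent.H4.FQ

theorem NUM_S_pos (M1 M0 q0 ρ On S : ℝ) (h1 : 1 ≤ M1) (h10 : M1 < M0) (hq0 : 0 < q0)
    (hρ2 : ρ ≤ q0) (hOn : On = M1 * (q0 - ρ)) (hS : S = M0 * q0 + On) :
    0 < M0 * q0 ∧ 0 ≤ On ∧ M0 * q0 ≤ S ∧ 0 < S := by
  have hM0 : 0 < M0 := by linarith
  have a1 : 0 < M0 * q0 := mul_pos hM0 hq0
  have a2 : 0 ≤ On := by
    rw [hOn]
    exact mul_nonneg (by linarith) (by linarith)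
  exact ⟨a1, a2, by linarith, by linarith⟩

theorem num_a (M1 M0 q0 q1 ρ A0 A1 On S : ℝ) (h1 : 1 ≤ M1) (h10 : M1 < M0) (hq0 : 0 < q0)
    (hq1 : 0 ≤ q1) (hρ0 : 0 ≤ ρ) (hρ1 : ρ ≤ q1) (hρ2 : ρ ≤ q0) (hOn : On = M1 * (q0 - ρ))
    (hS : S = M0 * q0 + On) (hA1 : |A1| ≤ M1 + M0) (hs : M0 * A0 + M1 * A1 ≤ 0) :
    (M0 * q0 * A0 + On * A1) / S
      ≤ -(-(M0 * A0 + M1 * A1)) / (M1 + M0) + (M1 + M0) * (q1 / q0) := by
  obtain ⟨a1, a2, a3, a4⟩ := NUM_S_pos M1 M0 q0 ρ On S h1 h10 hq0 hρ2 hOn hS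
  have hM0 : 0 < M0 := by linarith
  have hM1 : 0 < M1 := by linarith
  have hN : 0 < M1 + M0 := by linarith
  rw [div_le_iff₀ a4]
  set s : ℝ := -(M0 * A0 + M1 * A1) with hsdef
  have hs0 : 0 ≤ s := by rw [hsdef]; linarith
  have e1 : M0 * q0 * A0 + On * A1 = -(q0 * s) - M1 * ρ * A1 := by
    rw [hOn, hsdef]; ring
  have e2 : -(q0 * s) ≤ (-s / (M1 + M0)) * S := by
    have e3 : (-s / (M1 + M0)) * S = -(q0 * s) + s * (M1 * ρ) / (M1 + M0) := by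
      rw [hS, hOn]; field_simp; ring
    rw [e3]
    have : 0 ≤ s * (M1 * ρ) / (M1 + M0) := by positivity
    linarith
  have e4 : -(M1 * ρ * A1) ≤ ((M1 + M0) * (q1 / q0)) * S := by
    have b1 : -(M1 * ρ * A1) ≤ M1 * q1 * (M1 + M0) := by
      calc -(M1 * ρ * A1) ≤ |M1 * ρ * A1| := neg_le_abs _
        _ = M1 * ρ * |A1| := by
            rw [abs_mul, abs_of_nonneg (mul_nonneg hM1.le hρ0)]
        _ ≤ M1 * ρ * (M1 + M0) := by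
            exact mul_le_mul_of_nonneg_left hA1 (mul_nonneg hM1.le hρ0)
        _ ≤ M1 * q1 * (M1 + M0) := by
            apply mul_le_mul_of_nonneg_right _ hN.le
            exact mul_le_mul_of_nonneg_left hρ1 hM1.le
    have b2 : M1 * q1 * (M1 + M0) ≤ ((M1 + M0) * (q1 / q0)) * S := by
      have c1 : ((M1 + M0) * (q1 / q0)) * (M0 * q0) ≤ ((M1 + M0) * (q1 / q0)) * S := by
        apply mul_le_mul_of_nonneg_left a3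
        positivity
      have c2 : ((M1 + M0) * (q1 / q0)) * (M0 * q0) = M0 * q1 * (M1 + M0) := by
        field_simp
      have c3 : M1 * q1 * (M1 + M0) ≤ M0 * q1 * (M1 + M0) := by
        apply mul_le_mul_of_nonneg_right _ hN.le
        exact mul_le_mul_of_nonneg_right h10.le hq1
      linarith
    linarith
  rw [e1, add_mul]
  linarith

theorem NUM_D1 (M1 M0 q0 q1 ρ On D1 α β rd : ℝ) (h1 : 1 ≤ M1) (h10 : M1 < M0)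
    (hq0 : 0 < q0) (hρ0 : 0 ≤ ρ) (hρ1 : ρ ≤ q1) (hu : q1 / q0 ≤ 1 / 2)
    (hOn : On = M1 * (q0 - ρ)) (hrd0 : 0 ≤ rd) (hrd : rd ≤ 1 / 8)
    (hα0 : 0 ≤ α) (hα : α ≤ rd * (M0 * q0)) (hβ : β ≤ rd * On)
    (hD1 : D1 = On + α - β) :
    ρ ≤ q0 / 2 ∧ M1 * q0 / 2 ≤ On ∧ 7 / 16 * (M1 * q0) ≤ D1 ∧
      α + β ≤ rd * ((M1 + M0) * q0) := by
  have hM1 : 0 < M1 := by linarith
  have b1 : q1 ≤ q0 / 2 := by
    rw [div_le_iff₀ hq0] at hu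
    linarith
  have b2 : ρ ≤ q0 / 2 := le_trans hρ1 b1
  have b3 : M1 * q0 / 2 ≤ On := by
    rw [hOn]
    have : M1 * (q0 / 2) ≤ M1 * (q0 - ρ) := mul_le_mul_of_nonneg_left (by linarith) hM1.le
    linarith
  have b3' : On ≤ M1 * q0 := by
    rw [hOn]
    exact mul_le_mul_of_nonneg_left (by linarith) hM1.le
  have b4 : 0 ≤ On := by
    have : 0 ≤ M1 * q0 / 2 := by positivity
    linarith
  have b5 : rd * On ≤ 1 / 8 * On := mul_le_mul_of_nonneg_right hrd b4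
  refine ⟨b2, b3, ?_, ?_⟩
  · rw [hD1]; linarith
  · have b6 : rd * On ≤ rd * (M1 * q0) := mul_le_mul_of_nonneg_left b3' hrd0
    have : rd * ((M1 + M0) * q0) = rd * (M1 * q0) + rd * (M0 * q0) := by ring
    linarith

theorem num_b (M1 M0 q0 q1 ρ A0 A1 On S D1 SD α β δ rd : ℝ) (h1 : 1 ≤ M1) (h10 : M1 < M0)
    (hq0 : 0 < q0) (hq1 : 0 ≤ q1) (hρ0 : 0 ≤ ρ) (hρ1 : ρ ≤ q1) (hu : q1 / q0 ≤ 1 / 2)
    (hOn : On = M1 * (q0 - ρ)) (hS : S = M0 * q0 + On)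
    (hA1 : |A1| ≤ M1 + M0) (hrd0 : 0 ≤ rd) (hrd : rd ≤ 1 / 8)
    (hα0 : 0 ≤ α) (hα : α ≤ rd * (M0 * q0)) (hβ0 : 0 ≤ β) (hβ : β ≤ rd * On)
    (hD1 : D1 = On + α - β) (hSD : SD = On * A1 + δ) (hδ : |δ| ≤ (M1 + M0) * (α + β)) :
    -(-(M0 * A0 + M1 * A1)) - 8 * (M1 + M0) ^ 2 * rd ≤ M1 * (SD / D1) + M0 * A0 := by
  obtain ⟨_, _, b3, b4⟩ := NUM_D1 M1 M0 q0 q1 ρ On D1 α β rd h1 h10 hq0 hρ0 hρ1 hu hOn hrd0 hrd
    hα0 hα hβ hD1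
  have hM1 : 0 < M1 := by linarith
  have hN : 0 < M1 + M0 := by linarith
  have hD1pos : 0 < D1 := by
    have : 0 < 7 / 16 * (M1 * q0) := by positivity
    linarith
  have e1 : SD - A1 * D1 = δ - A1 * (α - β) := by
    rw [hSD, hD1]; ring
  have e2 : |δ - A1 * (α - β)| ≤ 2 * (M1 + M0) * (α + β) := by
    have c1 : |δ - A1 * (α - β)| ≤ |δ| + |A1 * (α - β)| := abs_sub _ _
    have c2 : |A1 * (α - β)| ≤ (M1 + M0) * (α + β) := by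
      rw [abs_mul]
      apply mul_le_mul hA1 _ (abs_nonneg _) hN.le
      rw [abs_le]
      constructor <;> linarith
    linarith
  have e3 : -(2 * (M1 + M0) * (α + β)) ≤ SD - A1 * D1 := by
    rw [e1]
    have := neg_abs_le (δ - A1 * (α - β))
    linarith
  have e4 : 2 * (M1 + M0) * (α + β) ≤ 2 * (M1 + M0) * (rd * ((M1 + M0) * q0)) :=
    mul_le_mul_of_nonneg_left b4 (by linarith)
  have e5 : 2 * (M1 + M0) * (rd * ((M1 + M0) * q0)) * M1 ≤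
      8 * (M1 + M0) ^ 2 * rd * D1 := by
    have c1 : 8 * (M1 + M0) ^ 2 * rd * (7 / 16 * (M1 * q0)) ≤ 8 * (M1 + M0) ^ 2 * rd * D1 := by
      apply mul_le_mul_of_nonneg_left b3
      positivity
    have c2 : 0 ≤ (M1 + M0) ^ 2 * rd * (M1 * q0) := by positivity
    nlinarith [c1, c2]
  have e6 : M1 * (SD / D1) - M1 * A1 = M1 * (SD - A1 * D1) / D1 := by
    field_simp
  have e7 : -(8 * (M1 + M0) ^ 2 * rd) ≤ M1 * (SD - A1 * D1) / D1 := by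
    rw [le_div_iff₀ hD1pos]
    have c1 : M1 * (-(2 * (M1 + M0) * (rd * ((M1 + M0) * q0)))) ≤ M1 * (SD - A1 * D1) :=
      mul_le_mul_of_nonneg_left (by linarith) hM1.le
    linarith
  linarith

theorem num_theta (M1 M0 q0 q1 ρ On S D1 α β rd : ℝ) (h1 : 1 ≤ M1) (h10 : M1 < M0)
    (hq0 : 0 < q0) (hq1 : 0 ≤ q1) (hρ0 : 0 ≤ ρ) (hρ1 : ρ ≤ q1) (hu : q1 / q0 ≤ 1 / 2)
    (hOn : On = M1 * (q0 - ρ)) (hS : S = M0 * q0 + On)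
    (hrd0 : 0 ≤ rd) (hrd : rd ≤ 1 / 8)
    (hα0 : 0 ≤ α) (hα : α ≤ rd * (M0 * q0)) (hβ0 : 0 ≤ β) (hβ : β ≤ rd * On)
    (hD1 : D1 = On + α - β) :
    1 / (4 * (M1 + M0)) ≤ D1 / S ∧ 1 / (M1 + M0) ≤ (M0 * q0) / S ∧
      (D1 / S) * ((M0 * q0) / S) ≤ 1 / 3 := by
  obtain ⟨b1, b2, b3, b4⟩ := NUM_D1 M1 M0 q0 q1 ρ On D1 α β rd h1 h10 hq0 hρ0 hρ1 hu hOn hrd0 hrd
    hα0 hα hβ hD1
  obtain ⟨a1, a2, a3, a4⟩ := NUM_S_pos M1 M0 q0 ρ On S h1 h10 hq0 (by linarith) hOn hS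
  have hM1 : 0 < M1 := by linarith
  have hN : 0 < M1 + M0 := by linarith
  have hSN : S ≤ (M1 + M0) * q0 := by
    rw [hS, hOn]
    have : M1 * (q0 - ρ) ≤ M1 * q0 := mul_le_mul_of_nonneg_left (by linarith) hM1.le
    linarith
  refine ⟨?_, ?_, ?_⟩
  · rw [div_le_div_iff₀ (by positivity) a4]
    have c1 : 7 / 16 * (M1 * q0) * (4 * (M1 + M0)) ≤ D1 * (4 * (M1 + M0)) :=
      mul_le_mul_of_nonneg_right b3 (by positivity)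
    have c2 : q0 * (M1 + M0) ≤ M1 * q0 * (M1 + M0) := by
      apply mul_le_mul_of_nonneg_right _ hN.le
      nlinarith
    nlinarith
  · rw [div_le_div_iff₀ hN a4]
    have c1 : q0 * (M1 + M0) ≤ M0 * q0 * (M1 + M0) := by
      apply mul_le_mul_of_nonneg_right _ hN.le
      nlinarith
    linarith
  · have c1 : D1 / S + M0 * q0 / S ≤ 9 / 8 := by
      rw [← add_div, div_le_iff₀ a4]
      have d1 : rd * (M0 * q0) ≤ 1 / 8 * (M0 * q0) := mul_le_mul_of_nonneg_right hrd a1.le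
      rw [hD1]
      linarith
    have c2 : 0 ≤ D1 / S := by
      apply div_nonneg _ a4.le
      have : 0 ≤ 7 / 16 * (M1 * q0) := by positivity
      linarith
    have c3 : 0 ≤ M0 * q0 / S := div_nonneg a1.le a4.le
    nlinarith [sq_nonneg (D1 / S - M0 * q0 / S), mul_self_nonneg (D1 / S + M0 * q0 / S)]

/-- from the densities to phi -/
theorem num_phi (m1 m0 : ℕ) (θ1 θ0 : ℝ) (hm1 : 0 < m1) (hm0 : 0 < m0)
    (h1 : 1 / (4 * ((m1 : ℝ) + m0)) ≤ θ1) (h0 : 1 / ((m1 : ℝ) + m0) ≤ θ0)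
    (h1' : θ1 ≤ 1) (h0' : θ0 ≤ 1) (h : θ1 * θ0 ≤ 1 / 3) :
    (1 / (4 * ((m1 : ℝ) + m0))) ^ (m1 + m0) ≤ θ1 ^ m1 * θ0 ^ m0 ∧ θ1 ^ m1 * θ0 ^ m0 ≤ 1 / 3 := by
  have hN : (0 : ℝ) < (m1 : ℝ) + m0 := by positivity
  have hp : (0 : ℝ) ≤ 1 / (4 * ((m1 : ℝ) + m0)) := by positivity
  have h0'' : 1 / (4 * ((m1 : ℝ) + m0)) ≤ θ0 := by
    refine le_trans ?_ h0
    apply one_div_le_one_div_of_le hN
    linarith
  have t1 : 0 ≤ θ1 := le_trans hp h1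
  have t0 : 0 ≤ θ0 := le_trans hp h0''
  constructor
  · rw [pow_add]
    exact mul_le_mul (pow_le_pow_left₀ hp h1 _) (pow_le_pow_left₀ hp h0'' _) (pow_nonneg hp _)
      (pow_nonneg t1 _)
  · refine le_trans ?_ h
    exact mul_le_mul (pow_le_of_le_one t1 h1' hm1.ne') (pow_le_of_le_one t0 h0' hm0.ne')
      (pow_nonneg t0 _) t1

end Pool.Agent.H4.FQ
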