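import Pool.Agent.H4.FQ.Defs
import Pool.Agent.H4.FP.EngA

/-!
Module SF2 (about 250 lines): the family SS2 B z d L = On2 ∪ Off2.  M1 = #{Z ∈ B, z ∈ Z}, M0 = #{Z ∈ B, z ∉ Z}, N = M1 + M0.
Members of Off2: w none = ∅, w (some i) ∈ B without z.  Members of On2: w none ∈ chain L, w (some i) ∈ B with z.
Cards: Off2 M0^d, On2 L M1^d (Fintype.card_piFinset, Fintype.prod_option).  Sums of a function of one coordinate: FP.sum_box.
`sums`: for every element e = (o,x) there are A0, A1 with Σ_{Off2} wt = M0^d A0, Σ_{On2} wt = L M1^d A1, |A0|,|A1| ≤ N, M0 A0 + M1 A1 ≤ 0: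
 o = some i: M0 A0 = g0 = Σ_{Z ∈ B, z ∉ Z} (N [x∈Z] - M1), M1 A1 = g1 (sum over Z ∋ z), g0 + g1 = N freq B x - M1 |B| = N (freq B x - M1) ≤ 0;
 o = none: A0 = -M1, A1 = N c/L - M1 with c = number of chain members containing x, c ≤ L.
`central2`: d = 1 + κ M0, L M1^(d-1) ≤ M0^(d-1) < (L+1) M1^(d-1):
  Σ_{i'} Σ_{w ∈ SS2, w (some i') = ∅} wt + κ Σ_{On2} wt ≤ -M1 M0^(d-1) + κ N M1^d.
 (w (some i') = ∅ forces w ∈ Off2.)  o = some i: i' = i gives -M1 M0^(d-1); i' ≠ i gives M0^(d-2) g0 = M0^(d-1) A0 (only if d ≥ 2); (d-1) A0 M0^(d-1) = κ M0^(d-1) M0 A0;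
 κ L M1^d A1 = κ M1 A1 (M0^(d-1) - ρ), 0 ≤ ρ ≤ M1^(d-1); total = -M1 M0^(d-1) + κ M0^(d-1)(M0 A0 + M1 A1) - κ M1 A1 ρ.
 o = none: each i' gives -M1 M0^(d-1) (d of them), A1 ≤ M0, so κ L M1^d A1 ≤ κ M0^(d-1) M1 M0 = (d-1) M1 M0^(d-1) (if A1 ≤ 0 it is ≤ 0).
 (Both statements can be proved together so that the same A0, A1 are used; they are separate here, please redo the computation or use `sums_some`, `sums_none` style lemmas of your own.)
-/

set_option autoImplicit false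

namespace Pool.Agent.H4.FQ

open Pool.Agent.H4.FP

theorem sf2_mem_off (B : Finset (Finset ℕ)) (z d : ℕ) (w : Option (Fin d) → Finset ℕ) :
    w ∈ Off2 B z d ↔ w none = ∅ ∧ ∀ i, w (some i) ∈ B ∧ z ∉ w (some i) := by
  unfold Off2
  rw [Fintype.mem_piFinset, Option.forall]
  refine and_congr ?_ (forall_congr' fun i => ?_)
  · exact Finset.mem_singleton
  · exact Finset.mem_filter

theorem sf2_mem_on (B : Finset (Finset ℕ)) (z d L : ℕ) (w : Option (Fin d) → Finset ℕ) :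
    w ∈ On2 B z d L ↔ w none ∈ chain L ∧ ∀ i, w (some i) ∈ B ∧ z ∈ w (some i) := by
  unfold On2
  rw [Fintype.mem_piFinset, Option.forall]
  refine and_congr Iff.rfl (forall_congr' fun i => ?_)
  exact Finset.mem_filter

theorem sf2_mem_ss (B : Finset (Finset ℕ)) (z d L : ℕ) (w : Option (Fin d) → Finset ℕ) :
    w ∈ SS2 B z d L ↔ w ∈ On2 B z d L ∨ w ∈ Off2 B z d := by
  unfold SS2
  exact Finset.mem_union

theorem disj2 (B : Finset (Finset ℕ)) (z d L : ℕ) (hd : 0 < d) :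
    Disjoint (On2 B z d L) (Off2 B z d) := by
  rw [Finset.disjoint_left]
  intro w h1 h2
  rw [sf2_mem_on] at h1
  rw [sf2_mem_off] at h2
  exact (h2.2 ⟨0, hd⟩).2 (h1.2 ⟨0, hd⟩).2

theorem card_chain (L : ℕ) : (chain L).card = L := by
  unfold chain
  rw [Finset.card_image_of_injective, Finset.card_range]
  intro k l h
  have h1 := congrArg Finset.card h
  simpa using h1

theorem card_off2 (B : Finset (Finset ℕ)) (z d : ℕ) :
    (Off2 B z d).card = (B.filter (fun Z => z ∉ Z)).card ^ d := by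
  unfold Off2
  rw [Fintype.card_piFinset, Fintype.prod_option]
  simp

theorem card_on2 (B : Finset (Finset ℕ)) (z d L : ℕ) :
    (On2 B z d L).card = L * (B.filter (fun Z => z ∈ Z)).card ^ d := by
  unfold On2
  rw [Fintype.card_piFinset, Fintype.prod_option]
  simp [card_chain]

theorem sf2_chain_sup (L : ℕ) (X Y : Finset ℕ) (hX : X ∈ chain L) (hY : Y ∈ chain L) :
    X ∪ Y ∈ chain L := by
  unfold chain at hX hY
  rw [Finset.mem_image] at hX hY
  obtain ⟨k, hk, rfl⟩ := hX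
  obtain ⟨l, hl, rfl⟩ := hY
  rcases le_total k l with h | h
  · rw [Finset.union_eq_right.2 (Finset.range_mono h)]
    exact Finset.mem_image_of_mem _ hl
  · rw [Finset.union_eq_left.2 (Finset.range_mono h)]
    exact Finset.mem_image_of_mem _ hk

theorem on2_sup (B : Finset (Finset ℕ)) (hB : UC B) (z d L : ℕ) :
    ∀ u ∈ On2 B z d L, ∀ v ∈ On2 B z d L, (fun i => u i ∪ v i) ∈ On2 B z d L := by
  intro u hu v hv
  rw [sf2_mem_on] at hu hv ⊢
  exact ⟨sf2_chain_sup L _ _ hu.1 hv.1,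
    fun i => ⟨hB _ (hu.2 i).1 _ (hv.2 i).1, Finset.mem_union_left _ (hu.2 i).2⟩⟩

theorem ss2_sup (B : Finset (Finset ℕ)) (hB : UC B) (z d L : ℕ) (hL : 0 < L) :
    ∀ u ∈ SS2 B z d L, ∀ v ∈ SS2 B z d L, (fun i => u i ∪ v i) ∈ SS2 B z d L := by
  have _ := hL
  intro u hu v hv
  rw [sf2_mem_ss] at hu hv ⊢
  rcases hu with hu | hu <;> rcases hv with hv | hv
  · exact Or.inl (on2_sup B hB z d L u hu v hv)
  · left
    rw [sf2_mem_on] at hu ⊢
    rw [sf2_mem_off] at hv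
    refine ⟨?_, fun i => ⟨hB _ (hu.2 i).1 _ (hv.2 i).1, Finset.mem_union_left _ (hu.2 i).2⟩⟩
    rw [hv.1, Finset.union_empty]
    exact hu.1
  · left
    rw [sf2_mem_on] at hv ⊢
    rw [sf2_mem_off] at hu
    refine ⟨?_, fun i => ⟨hB _ (hu.2 i).1 _ (hv.2 i).1, Finset.mem_union_right _ (hv.2 i).2⟩⟩
    rw [hu.1, Finset.empty_union]
    exact hv.1
  · right
    rw [sf2_mem_off] at hu hv ⊢
    refine ⟨by rw [hu.1, hv.1, Finset.empty_union],
      fun i => ⟨hB _ (hu.2 i).1 _ (hv.2 i).1, fun h => ?_⟩⟩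
    rcases Finset.mem_union.1 h with h | h
    · exact (hu.2 i).2 h
    · exact (hv.2 i).2 h

theorem off2_down (B : Finset (Finset ℕ)) (z d L : ℕ) (hd : 0 < d) :
    ∀ v ∈ Off2 B z d, ∀ u ∈ SS2 B z d L, (∀ i, u i ⊆ v i) → u ∈ Off2 B z d := by
  intro v hv u hu huv
  rw [sf2_mem_ss] at hu
  rcases hu with hu | hu
  · rw [sf2_mem_on] at hu
    rw [sf2_mem_off] at hv
    exact absurd (huv _ (hu.2 ⟨0, hd⟩).2) (hv.2 ⟨0, hd⟩).2
  · exact hu

/-- the weight of one coordinate -/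
def sf2_f (N M1 x : ℕ) (Z : Finset ℕ) : ℝ := (if x ∈ Z then (N : ℝ) else 0) - M1

theorem sf2_wt (N M1 d : ℕ) (o : Option (Fin d)) (x : ℕ) (w : Option (Fin d) → Finset ℕ) :
    wt N M1 o x w = sf2_f N M1 x (w o) := rfl

theorem sf2_f_abs (N M1 x : ℕ) (h : M1 ≤ N) (Z : Finset ℕ) : |sf2_f N M1 x Z| ≤ N := by
  unfold sf2_f
  have h1 : (M1 : ℝ) ≤ N := by exact_mod_cast h
  have h2 : (0 : ℝ) ≤ M1 := Nat.cast_nonneg _
  split_ifs
  · rw [abs_of_nonneg (by linarith)]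
    linarith
  · rw [zero_sub, abs_neg, abs_of_nonneg h2]
    exact h1

theorem wt_abs (N M1 d : ℕ) (h : M1 ≤ N) (o : Option (Fin d)) (x : ℕ)
    (w : Option (Fin d) → Finset ℕ) : |wt N M1 o x w| ≤ N := by
  rw [sf2_wt]
  exact sf2_f_abs N M1 x h _

theorem sf2_f_sum (N M1 x : ℕ) (C : Finset (Finset ℕ)) :
    ∑ Z ∈ C, sf2_f N M1 x Z = (N : ℝ) * (C.filter (fun Z => x ∈ Z)).card - M1 * C.card := by
  unfold sf2_f
  rw [Finset.sum_sub_distrib, Finset.sum_ite, Finset.sum_const, Finset.sum_const_zero,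
    Finset.sum_const, nsmul_eq_mul, nsmul_eq_mul, add_zero, mul_comm, mul_comm (M1 : ℝ)]

theorem sf2_sum_abs (N M1 x : ℕ) (h : M1 ≤ N) (C : Finset (Finset ℕ)) :
    |∑ Z ∈ C, sf2_f N M1 x Z| ≤ C.card * N := by
  refine (Finset.abs_sum_le_sum_abs _ _).trans ?_
  refine (Finset.sum_le_card_nsmul _ _ _ fun Z _ => sf2_f_abs N M1 x h Z).trans ?_
  rw [nsmul_eq_mul]

theorem sf2_prod_some {d : ℕ} (a : ℝ) (b : Fin d → ℝ) (i : Fin d) :
    ∏ j ∈ Finset.univ.erase (some i : Option (Fin d)), (Option.elim j a b) =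
      a * ∏ j ∈ Finset.univ.erase i, b j := by
  have h : Finset.univ.erase (some i : Option (Fin d)) =
      insert none ((Finset.univ.erase i).map Function.Embedding.some) := by
    ext j
    cases j with
    | none => simp
    | some j => simp
  rw [h, Finset.prod_insert (by simp), Finset.prod_map]
  rfl

theorem sf2_prod_none {d : ℕ} (a : ℝ) (b : Fin d → ℝ) :
    ∏ j ∈ Finset.univ.erase (none : Option (Fin d)), (Option.elim j a b) =
      ∏ j, b j := by
  have h : Finset.univ.erase (none : Option (Fin d)) =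
      (Finset.univ : Finset (Fin d)).map Function.Embedding.some := by
    ext j
    cases j with
    | none => simp
    | some j => simp
  rw [h, Finset.prod_map]
  rfl

/-- sum of a function of one coordinate over a box -/
theorem sf2_box {d : ℕ} (T : Finset (Finset ℕ)) (U : Fin d → Finset (Finset ℕ))
    (f : Finset ℕ → ℝ) (o : Option (Fin d)) :
    ∑ w ∈ Fintype.piFinset (fun o : Option (Fin d) => Option.elim o T U), f (w o) =
      Option.elim o ((∑ Z ∈ T, f Z) * ∏ j, ((U j).card : ℝ))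
        (fun i => (∑ Z ∈ U i, f Z) * ((T.card : ℝ) * ∏ j ∈ Finset.univ.erase i, ((U j).card : ℝ)))
      := by
  rw [sum_box]
  have h : ∀ j : Option (Fin d), ((Option.elim j T U).card : ℝ) =
      Option.elim j (T.card : ℝ) (fun j => ((U j).card : ℝ)) := by
    intro j
    cases j <;> rfl
  rw [Finset.prod_congr rfl fun j _ => h j]
  cases o with
  | none => rw [sf2_prod_none]; rfl
  | some i => rw [sf2_prod_some]; rfl

theorem sf2_erase_const {d : ℕ} (c : ℝ) (i : Fin d) :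
    ∏ _j ∈ (Finset.univ : Finset (Fin d)).erase i, c = c ^ (d - 1) := by
  rw [Finset.prod_const, Finset.card_erase_of_mem (Finset.mem_univ _), Finset.card_univ,
    Fintype.card_fin]

theorem sf2_off_some (B : Finset (Finset ℕ)) (z d M0 : ℕ)
    (h0 : (B.filter (fun Z => z ∉ Z)).card = M0) (f : Finset ℕ → ℝ) (i : Fin d) :
    ∑ w ∈ Off2 B z d, f (w (some i)) =
      (M0 : ℝ) ^ (d - 1) * ∑ Z ∈ B.filter (fun Z => z ∉ Z), f Z := by
  unfold Off2
  rw [sf2_box, h0]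
  change _ * (((Finset.card {(∅ : Finset ℕ)} : ℕ) : ℝ) * _) = _
  rw [sf2_erase_const, Finset.card_singleton, Nat.cast_one, one_mul, mul_comm]

theorem sf2_off_none (B : Finset (Finset ℕ)) (z d M0 : ℕ)
    (h0 : (B.filter (fun Z => z ∉ Z)).card = M0) (f : Finset ℕ → ℝ) :
    ∑ w ∈ Off2 B z d, f (w none) = (M0 : ℝ) ^ d * f ∅ := by
  unfold Off2
  rw [sf2_box, h0]
  change (∑ Z ∈ {(∅ : Finset ℕ)}, f Z) * _ = _
  rw [Finset.sum_singleton, Finset.prod_const, Finset.card_univ, Fintype.card_fin, mul_comm]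

theorem sf2_on_some (B : Finset (Finset ℕ)) (z d L M1 : ℕ)
    (h1 : (B.filter (fun Z => z ∈ Z)).card = M1) (f : Finset ℕ → ℝ) (i : Fin d) :
    ∑ w ∈ On2 B z d L, f (w (some i)) =
      (L : ℝ) * (M1 : ℝ) ^ (d - 1) * ∑ Z ∈ B.filter (fun Z => z ∈ Z), f Z := by
  unfold On2
  rw [sf2_box, h1]
  change _ * (((chain L).card : ℝ) * _) = _
  rw [sf2_erase_const, card_chain, mul_comm]

theorem sf2_on_none (B : Finset (Finset ℕ)) (z d L M1 : ℕ)
    (h1 : (B.filter (fun Z => z ∈ Z)).card = M1) (f : Finset ℕ → ℝ) :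
    ∑ w ∈ On2 B z d L, f (w none) = (M1 : ℝ) ^ d * ∑ Z ∈ chain L, f Z := by
  unfold On2
  rw [sf2_box, h1]
  change (∑ Z ∈ chain L, f Z) * _ = _
  rw [Finset.prod_const, Finset.card_univ, Fintype.card_fin, mul_comm]

/-- data on the sums over `B` -/
theorem sf2_g (B : Finset (Finset ℕ)) (z M1 M0 : ℕ)
    (h1 : (B.filter (fun Z => z ∈ Z)).card = M1) (h0 : (B.filter (fun Z => z ∉ Z)).card = M0)
    (x : ℕ) (hf : freq B x ≤ M1) :
    ∑ Z ∈ B.filter (fun Z => z ∉ Z), sf2_f (M1 + M0) M1 x Z +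
      ∑ Z ∈ B.filter (fun Z => z ∈ Z), sf2_f (M1 + M0) M1 x Z ≤ 0 := by
  rw [add_comm, Finset.sum_filter_add_sum_filter_not, sf2_f_sum]
  have hc : B.card = M1 + M0 := by
    rw [← h1, ← h0]
    exact (Finset.card_filter_add_card_filter_not (s := B) (fun Z => z ∈ Z)).symm
  rw [hc]
  have h2 : ((B.filter (fun Z => x ∈ Z)).card : ℝ) ≤ M1 := by exact_mod_cast hf
  have h3 : (0 : ℝ) ≤ ((M1 + M0 : ℕ) : ℝ) := Nat.cast_nonneg _
  nlinarith [mul_le_mul_of_nonneg_left h2 h3]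

theorem sf2_chain_sum (N M1 x L : ℕ) :
    ∑ Z ∈ chain L, sf2_f N M1 x Z =
      (N : ℝ) * ((chain L).filter (fun Z => x ∈ Z)).card - M1 * L := by
  rw [sf2_f_sum, card_chain]

theorem sf2_chain_c (x L : ℕ) : (((chain L).filter (fun Z => x ∈ Z)).card : ℝ) ≤ L := by
  have h := Finset.card_filter_le (chain L) (fun Z => x ∈ Z)
  rw [card_chain] at h
  exact_mod_cast h

theorem sums (B : Finset (Finset ℕ)) (z d L M1 M0 : ℕ) (hd : 0 < d) (hL : 0 < L)
    (hM1 : 0 < M1) (hM0 : 0 < M0)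
    (h1 : (B.filter (fun Z => z ∈ Z)).card = M1) (h0 : (B.filter (fun Z => z ∉ Z)).card = M0)
    (hf : ∀ x, freq B x ≤ M1) (o : Option (Fin d)) (x : ℕ) :
    ∃ A0 A1 : ℝ, |A0| ≤ (M1 + M0 : ℕ) ∧ |A1| ≤ (M1 + M0 : ℕ) ∧ M0 * A0 + M1 * A1 ≤ 0 ∧
      ∑ w ∈ Off2 B z d, wt (M1 + M0) M1 o x w = (M0 : ℝ) ^ d * A0 ∧
      ∑ w ∈ On2 B z d L, wt (M1 + M0) M1 o x w = (L : ℝ) * (M1 : ℝ) ^ d * A1 := by
  have hM1' : (0 : ℝ) < M1 := by exact_mod_cast hM1
  have hM0' : (0 : ℝ) < M0 := by exact_mod_cast hM0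
  have hL' : (0 : ℝ) < L := by exact_mod_cast hL
  have hle : M1 ≤ M1 + M0 := Nat.le_add_right _ _
  simp only [sf2_wt]
  cases o with
  | some i =>
    have hA0 := sf2_sum_abs (M1 + M0) M1 x hle (B.filter (fun Z => z ∉ Z))
    have hA1 := sf2_sum_abs (M1 + M0) M1 x hle (B.filter (fun Z => z ∈ Z))
    have hg := sf2_g B z M1 M0 h1 h0 x (hf x)
    rw [sf2_off_some B z d M0 h0, sf2_on_some B z d L M1 h1]
    rw [h0] at hA0
    rw [h1] at hA1
    set g0 := ∑ Z ∈ B.filter (fun Z => z ∉ Z), sf2_f (M1 + M0) M1 x Z with hg0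
    set g1 := ∑ Z ∈ B.filter (fun Z => z ∈ Z), sf2_f (M1 + M0) M1 x Z with hg1
    refine ⟨g0 / M0, g1 / M1, ?_, ?_, ?_, ?_, ?_⟩
    · rw [abs_div, abs_of_pos hM0', div_le_iff₀ hM0', mul_comm]
      exact hA0
    · rw [abs_div, abs_of_pos hM1', div_le_iff₀ hM1', mul_comm]
      exact hA1
    · rw [mul_div_cancel₀ _ hM0'.ne', mul_div_cancel₀ _ hM1'.ne']
      exact hg
    · obtain ⟨e, rfl⟩ : ∃ e, d = e + 1 := ⟨d - 1, by omega⟩
      rw [Nat.add_sub_cancel, pow_succ]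
      field_simp
    · obtain ⟨e, rfl⟩ : ∃ e, d = e + 1 := ⟨d - 1, by omega⟩
      rw [Nat.add_sub_cancel, pow_succ]
      field_simp
  | none =>
    have hc := sf2_chain_c x L
    have hc0 : (0 : ℝ) ≤ ((chain L).filter (fun Z => x ∈ Z)).card := Nat.cast_nonneg _
    rw [sf2_off_none B z d M0 h0, sf2_on_none B z d L M1 h1, sf2_chain_sum]
    set c : ℝ := (((chain L).filter (fun Z => x ∈ Z)).card : ℝ) with hcc
    have hcL : c / L ≤ 1 := by rw [div_le_one hL']; exact hc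
    have hcL0 : 0 ≤ c / L := div_nonneg hc0 hL'.le
    have hN : (((M1 + M0 : ℕ)) : ℝ) = M1 + M0 := by push_cast; ring
    refine ⟨-M1, (M1 + M0 : ℕ) * (c / L) - M1, ?_, ?_, ?_, ?_, ?_⟩
    · rw [abs_neg, abs_of_pos hM1', hN]
      linarith
    · rw [hN, abs_le]
      constructor
      · nlinarith
      · nlinarith
    · rw [hN]
      have h5 : (M1 : ℝ) * (((M1 : ℝ) + M0) * (c / L)) ≤ M1 * (((M1 : ℝ) + M0) * 1) := by
        gcongr
      nlinarith
    · unfold sf2_f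
      rw [if_neg (Finset.notMem_empty x), zero_sub]
    · field_simp

theorem sf2_filter (B : Finset (Finset ℕ)) (z d L : ℕ) (hemp : ∅ ∈ B) (i' : Fin d) :
    (SS2 B z d L).filter (fun w => w (some i') = ∅) =
      Fintype.piFinset (fun o : Option (Fin d) => Option.elim o {∅}
        (fun j => if j = i' then {∅} else B.filter (fun Z => z ∉ Z))) := by
  ext w
  rw [Finset.mem_filter, Fintype.mem_piFinset, Option.forall]
  constructor
  · rintro ⟨h1, h2⟩
    have h3 : w ∈ Off2 B z d := by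
      rw [sf2_mem_ss] at h1
      rcases h1 with h1 | h1
      · rw [sf2_mem_on] at h1
        have := (h1.2 i').2
        rw [h2] at this
        exact absurd this (Finset.notMem_empty z)
      · exact h1
    rw [sf2_mem_off] at h3
    refine ⟨Finset.mem_singleton.2 h3.1, fun j => ?_⟩
    change w (some j) ∈ (if j = i' then {∅} else B.filter (fun Z => z ∉ Z))
    by_cases hj : j = i'
    · rw [if_pos hj, Finset.mem_singleton, hj]
      exact h2
    · rw [if_neg hj, Finset.mem_filter]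
      exact h3.2 j
  · rintro ⟨h, h'⟩
    have h2 : w (some i') = ∅ := by
      have h4 : w (some i') ∈ (if i' = i' then {∅} else B.filter (fun Z => z ∉ Z)) := h' i'
      rwa [if_pos rfl, Finset.mem_singleton] at h4
    refine ⟨?_, h2⟩
    rw [sf2_mem_ss]
    right
    rw [sf2_mem_off]
    refine ⟨Finset.mem_singleton.1 h, fun j => ?_⟩
    by_cases hj : j = i'
    · rw [hj, h2]
      exact ⟨hemp, Finset.notMem_empty z⟩
    · have h4 : w (some j) ∈ (if j = i' then {∅} else B.filter (fun Z => z ∉ Z)) := h' j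
      rwa [if_neg hj, Finset.mem_filter] at h4

theorem sf2_card_if (C : Finset (Finset ℕ)) (M0 : ℕ) (h0 : C.card = M0) {d : ℕ} (i' j : Fin d) :
    (((if j = i' then {∅} else C : Finset (Finset ℕ)).card : ℕ) : ℝ) =
      if j = i' then 1 else (M0 : ℝ) := by
  split_ifs
  · simp
  · rw [h0]

theorem sf2_prod_if {d : ℕ} (s : Finset (Fin d)) (i' : Fin d) (hi : i' ∈ s) (c : ℝ) :
    ∏ j ∈ s, (if j = i' then 1 else c) = c ^ (s.card - 1) := by
  rw [← Finset.mul_prod_erase _ _ hi, if_pos rfl, one_mul,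
    Finset.prod_congr rfl (g := fun _ => c), Finset.prod_const, Finset.card_erase_of_mem hi]
  intro j hj
  rw [if_neg (Finset.ne_of_mem_erase hj)]

theorem central2 (B : Finset (Finset ℕ)) (z d L M1 M0 κ : ℕ) (hd : d = 1 + κ * M0) (hL : 0 < L)
    (hM1 : 0 < M1) (hM0 : 0 < M0)
    (h1 : (B.filter (fun Z => z ∈ Z)).card = M1) (h0 : (B.filter (fun Z => z ∉ Z)).card = M0)
    (hf : ∀ x, freq B x ≤ M1) (hemp : ∅ ∈ B)
    (hLa : L * M1 ^ (d - 1) ≤ M0 ^ (d - 1)) (hLb : M0 ^ (d - 1) ≤ (L + 1) * M1 ^ (d - 1))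
    (o : Option (Fin d)) (x : ℕ) :
    ∑ i' : Fin d, ∑ w ∈ (SS2 B z d L).filter (fun w => w (some i') = ∅), wt (M1 + M0) M1 o x w
      + (κ : ℝ) * ∑ w ∈ On2 B z d L, wt (M1 + M0) M1 o x w
      ≤ - (M1 : ℝ) * (M0 : ℝ) ^ (d - 1) + (κ : ℝ) * (M1 + M0 : ℕ) * (M1 : ℝ) ^ d := by
  have hM1' : (0 : ℝ) < M1 := by exact_mod_cast hM1
  have hM0' : (0 : ℝ) < M0 := by exact_mod_cast hM0
  have hL' : (0 : ℝ) < L := by exact_mod_cast hL
  have hle : M1 ≤ M1 + M0 := Nat.le_add_right _ _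
  have hκ0 : (0 : ℝ) ≤ κ := Nat.cast_nonneg _
  have hN : (((M1 + M0 : ℕ)) : ℝ) = M1 + M0 := by push_cast; ring
  have hemp' : sf2_f (M1 + M0) M1 x ∅ = -M1 := by
    unfold sf2_f
    rw [if_neg (Finset.notMem_empty x), zero_sub]
  have hPa : (L : ℝ) * (M1 : ℝ) ^ (d - 1) ≤ (M0 : ℝ) ^ (d - 1) := by exact_mod_cast hLa
  have hPb : (M0 : ℝ) ^ (d - 1) ≤ ((L : ℝ) + 1) * (M1 : ℝ) ^ (d - 1) := by exact_mod_cast hLb
  have hdd : (M1 : ℝ) ^ d = M1 * (M1 : ℝ) ^ (d - 1) := by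
    rw [← pow_succ']
    congr 1
    omega
  have hPpos : (0 : ℝ) < (M0 : ℝ) ^ (d - 1) := pow_pos hM0' _
  have hQpos : (0 : ℝ) < (M1 : ℝ) ^ (d - 1) := pow_pos hM1' _
  simp only [sf2_wt]
  simp_rw [sf2_filter B z d L hemp, sf2_box]
  cases o with
  | some i =>
    have hA1 := sf2_sum_abs (M1 + M0) M1 x hle (B.filter (fun Z => z ∈ Z))
    have hg := sf2_g B z M1 M0 h1 h0 x (hf x)
    rw [sf2_on_some B z d L M1 h1]
    rw [h1] at hA1
    set g0 := ∑ Z ∈ B.filter (fun Z => z ∉ Z), sf2_f (M1 + M0) M1 x Z with hg0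
    set g1 := ∑ Z ∈ B.filter (fun Z => z ∈ Z), sf2_f (M1 + M0) M1 x Z with hg1
    simp only [Option.elim_some]
    have hself : (∑ Z ∈ (if i = i then {∅} else B.filter (fun Z => z ∉ Z) : Finset (Finset ℕ)),
        sf2_f (M1 + M0) M1 x Z) * (((Finset.card {(∅ : Finset ℕ)} : ℕ) : ℝ) *
        ∏ j ∈ Finset.univ.erase i,
          (((if j = i then {∅} else B.filter (fun Z => z ∉ Z) : Finset (Finset ℕ)).card : ℕ) : ℝ))
        = -M1 * (M0 : ℝ) ^ (d - 1) := by
      rw [if_pos rfl, Finset.sum_singleton, hemp', Finset.card_singleton, Nat.cast_one, one_mul]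
      congr 1
      rw [← sf2_erase_const (M0 : ℝ) i]
      refine Finset.prod_congr rfl fun j hj => ?_
      rw [if_neg (Finset.ne_of_mem_erase hj), h0]
    have hother : ∀ i' ∈ Finset.univ.erase i,
        (∑ Z ∈ (if i = i' then {∅} else B.filter (fun Z => z ∉ Z) : Finset (Finset ℕ)),
        sf2_f (M1 + M0) M1 x Z) * (((Finset.card {(∅ : Finset ℕ)} : ℕ) : ℝ) *
        ∏ j ∈ Finset.univ.erase i,
          (((if j = i' then {∅} else B.filter (fun Z => z ∉ Z) : Finset (Finset ℕ)).card : ℕ) : ℝ))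
        = g0 * (M0 : ℝ) ^ (d - 2) := by
      intro i' hi'
      have hne : i' ≠ i := Finset.ne_of_mem_erase hi'
      rw [if_neg (Ne.symm hne), Finset.card_singleton, Nat.cast_one, one_mul]
      congr 1
      rw [Finset.prod_congr rfl fun j _ => sf2_card_if _ M0 h0 i' j, sf2_prod_if _ i' hi',
        Finset.card_erase_of_mem (Finset.mem_univ _), Finset.card_univ, Fintype.card_fin]
      rfl
    rw [← Finset.add_sum_erase _ _ (Finset.mem_univ i), hself, Finset.sum_congr rfl hother,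
      Finset.sum_const, Finset.card_erase_of_mem (Finset.mem_univ _), Finset.card_univ,
      Fintype.card_fin, nsmul_eq_mul]
    have hd1 : d - 1 = κ * M0 := by omega
    rw [hdd]
    rcases Nat.eq_zero_or_pos κ with hκ | hκ
    · have h7 : ((d - 1 : ℕ) : ℝ) = 0 := by rw [hd1, hκ, zero_mul, Nat.cast_zero]
      rw [h7, hκ]
      simp
    · have hpos : 0 < κ * M0 := Nat.mul_pos hκ hM0
      have h3 : (M0 : ℝ) ^ (d - 1) = M0 * (M0 : ℝ) ^ (d - 2) := by
        rw [← pow_succ']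
        congr 1
        omega
      have h4 : ((d - 1 : ℕ) : ℝ) = κ * M0 := by
        rw [hd1]
        push_cast
        ring
      have h5 : ((d - 1 : ℕ) : ℝ) * (g0 * (M0 : ℝ) ^ (d - 2)) = κ * ((M0 : ℝ) ^ (d - 1) * g0) := by
        rw [h4, h3]
        ring
      rw [h5]
      set P := (M0 : ℝ) ^ (d - 1) with hP
      set Q := (M1 : ℝ) ^ (d - 1) with hQ
      have h6 : P * g0 + L * Q * g1 ≤ (M1 + M0 : ℕ) * (M1 * Q) := by
        have h8 : P * (g0 + g1) ≤ 0 := mul_nonpos_of_nonneg_of_nonpos hPpos.le hg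
        have h9 : -((P - L * Q) * g1) ≤ Q * (M1 * (M1 + M0 : ℕ)) := by
          have h10 : |(P - L * Q) * g1| ≤ Q * (M1 * (M1 + M0 : ℕ)) := by
            rw [abs_mul, abs_of_nonneg (by linarith)]
            refine mul_le_mul (by linarith) hA1 (abs_nonneg _) hQpos.le
          exact (neg_le_abs _).trans h10
        nlinarith
      have h11 := mul_le_mul_of_nonneg_left h6 hκ0
      nlinarith
  | none =>
    have hc := sf2_chain_c x L
    rw [sf2_on_none B z d L M1 h1, sf2_chain_sum]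
    set c : ℝ := (((chain L).filter (fun Z => x ∈ Z)).card : ℝ) with hcc
    simp only [Option.elim_none]
    have hall : ∀ i' : Fin d, (∑ Z ∈ ({∅} : Finset (Finset ℕ)), sf2_f (M1 + M0) M1 x Z) *
        ∏ j, (((if j = i' then {∅} else B.filter (fun Z => z ∉ Z) :
          Finset (Finset ℕ)).card : ℕ) : ℝ) = -M1 * (M0 : ℝ) ^ (d - 1) := by
      intro i'
      rw [Finset.sum_singleton, hemp']
      congr 1
      rw [Finset.prod_congr rfl fun j _ => sf2_card_if _ M0 h0 i' j,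
        sf2_prod_if _ i' (Finset.mem_univ _), Finset.card_univ, Fintype.card_fin]
    rw [Finset.sum_congr rfl fun i' _ => hall i', Finset.sum_const, Finset.card_univ,
      Fintype.card_fin, nsmul_eq_mul, hdd]
    have h4 : (d : ℝ) = 1 + κ * M0 := by
      rw [hd]
      push_cast
      ring
    rw [h4, hN]
    set P := (M0 : ℝ) ^ (d - 1) with hP
    set Q := (M1 : ℝ) ^ (d - 1) with hQ
    have h5 : ((M1 : ℝ) + M0) * c - M1 * L ≤ L * M0 := by nlinarith
    have h6 : (κ : ℝ) * (M1 * Q * (((M1 : ℝ) + M0) * c - M1 * L)) ≤ κ * (M1 * Q * (L * M0)) := by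
      gcongr
    have h7 : (κ : ℝ) * (M1 * Q * (L * M0)) ≤ κ * (M1 * M0 * P) := by
      have : (M1 : ℝ) * Q * (L * M0) = M1 * M0 * (L * Q) := by ring
      rw [this]
      gcongr
    have h8 : 0 ≤ (κ : ℝ) * ((M1 : ℝ) + M0) * (M1 * Q) := by positivity
    nlinarith

end Pool.Agent.H4.FQ
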