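import Pool.Agent.H4.FQ.Defs
import Pool.Agent.H4.FQ.Amp2
import Pool.Agent.H4.FQ.SF2

/-!
Module TAG2 (about 90 lines): the second tag D1 = SS2 \ VV, VV = {w : m ≤ #{i : w (some i) ∈ V}}.
Apply `amplify2` with G1 = members with z, G0 = members without z, V.  D1 is a down-set of SS2 for pointwise inclusion (V is an up-set of B).
|D1 ∩ Off2| ≤ r^d M0^d (project w to (fun i => w (some i)); on Off2 this is injective), |On2 \ D1| ≤ L r^d M1^d (fibres have L elements).
(The proof of H4/FP/Tag.lean may help.)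
-/

set_option autoImplicit false

namespace Pool.Agent.H4.FQ

open Pool.Agent.H4.FP

theorem tag2_mem_on2 (B : Finset (Finset ℕ)) (z d L : ℕ) (w : Option (Fin d) → Finset ℕ) :
    w ∈ On2 B z d L ↔ w none ∈ chain L ∧ ∀ i : Fin d, w (some i) ∈ B ∧ z ∈ w (some i) := by
  unfold On2
  rw [Fintype.mem_piFinset]
  constructor
  · intro h
    exact ⟨h none, fun i => Finset.mem_filter.1 (h (some i))⟩
  · rintro ⟨h1, h2⟩ o
    cases o with
    | none => exact h1
    | some i => exact Finset.mem_filter.2 (h2 i)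

theorem tag2_mem_off2 (B : Finset (Finset ℕ)) (z d : ℕ) (w : Option (Fin d) → Finset ℕ) :
    w ∈ Off2 B z d ↔ w none = ∅ ∧ ∀ i : Fin d, w (some i) ∈ B ∧ z ∉ w (some i) := by
  unfold Off2
  rw [Fintype.mem_piFinset]
  constructor
  · intro h
    exact ⟨Finset.mem_singleton.1 (h none), fun i => Finset.mem_filter.1 (h (some i))⟩
  · rintro ⟨h1, h2⟩ o
    cases o with
    | none => exact Finset.mem_singleton.2 h1
    | some i => exact Finset.mem_filter.2 (h2 i)

theorem tag2_card_chain_le (L : ℕ) : (chain L).card ≤ L := by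
  unfold chain
  exact Finset.card_image_le.trans (by rw [Finset.card_range])

theorem exists_tag2 (B : Finset (Finset ℕ)) (z M1 M0 : ℕ) (hM1 : 0 < M1) (hM0 : 0 < M0)
    (h1 : (B.filter (fun Z => z ∈ Z)).card = M1) (h0 : (B.filter (fun Z => z ∉ Z)).card = M0)
    (V : Finset (Finset ℕ)) (hVB : V ⊆ B) (hV : ∀ X ∈ V, ∀ Y ∈ B, X ⊆ Y → Y ∈ V)
    (hlt : (V.filter (fun Z => z ∈ Z)).card * M0 < (V.filter (fun Z => z ∉ Z)).card * M1) :
    ∃ r : ℝ, 0 < r ∧ r < 1 ∧ ∀ d L : ℕ, 0 < d → ∃ D1 : Finset (Option (Fin d) → Finset ℕ),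
      D1 ⊆ SS2 B z d L ∧ (∀ v ∈ D1, ∀ u ∈ SS2 B z d L, (∀ i, u i ⊆ v i) → u ∈ D1) ∧
      ((D1 ∩ Off2 B z d).card : ℝ) ≤ r ^ d * (M0 : ℝ) ^ d ∧
      ((On2 B z d L \ D1).card : ℝ) ≤ r ^ d * (L * (M1 : ℝ) ^ d) := by
  classical
  have hf1 : (B.filter (fun Z => z ∈ Z)).filter (fun X => X ∈ V) = V.filter (fun Z => z ∈ Z) := by
    ext X
    simp only [Finset.mem_filter]
    exact ⟨fun h => ⟨h.2, h.1.2⟩, fun h => ⟨⟨hVB h.1, h.2⟩, h.1⟩⟩
  have hf0 : (B.filter (fun Z => z ∉ Z)).filter (fun X => X ∈ V) = V.filter (fun Z => z ∉ Z) := by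
    ext X
    simp only [Finset.mem_filter]
    exact ⟨fun h => ⟨h.2, h.1.2⟩, fun h => ⟨⟨hVB h.1, h.2⟩, h.1⟩⟩
  obtain ⟨r, hr0, hr1, H⟩ := amplify2 (B.filter (fun Z => z ∈ Z)) (B.filter (fun Z => z ∉ Z))
    (fun X => X ∈ V) (by rw [h1]; exact hM1) (by rw [h0]; exact hM0)
    (by rw [hf1, hf0, h1, h0]; exact hlt)
  refine ⟨r, hr0, hr1, fun d L hd => ?_⟩
  obtain ⟨m, A1, A2⟩ := H d
  rw [h1] at A1
  rw [h0] at A2
  set nV : (Option (Fin d) → Finset ℕ) → ℕ :=
    fun w => (Finset.univ.filter (fun i : Fin d => w (some i) ∈ V)).card with hnV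
  have hSB : ∀ w ∈ SS2 B z d L, ∀ i : Fin d, w (some i) ∈ B := by
    intro w hw i
    rcases Finset.mem_union.mp hw with h | h
    · exact (((tag2_mem_on2 B z d L w).1 h).2 i).1
    · exact (((tag2_mem_off2 B z d w).1 h).2 i).1
  refine ⟨(SS2 B z d L).filter (fun w => nV w < m), Finset.filter_subset _ _, ?_, ?_, ?_⟩
  · intro v hv u hu huv
    obtain ⟨hv1, hv2⟩ := Finset.mem_filter.mp hv
    refine Finset.mem_filter.mpr ⟨hu, lt_of_le_of_lt ?_ hv2⟩
    apply Finset.card_le_card
    intro i hi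
    rw [Finset.mem_filter] at hi ⊢
    exact ⟨Finset.mem_univ _, hV _ hi.2 _ (hSB v hv1 i) (huv (some i))⟩
  · refine le_trans ?_ A2
    have : ((SS2 B z d L).filter (fun w => nV w < m) ∩ Off2 B z d).card ≤
        ((Fintype.piFinset fun _ : Fin d => B.filter (fun Z => z ∉ Z)).filter
          (fun w => (Finset.univ.filter (fun i => w i ∈ V)).card < m)).card := by
      apply Finset.card_le_card_of_injOn (fun w i => w (some i))
      · intro w hw
        obtain ⟨hw1, hw2⟩ := Finset.mem_inter.1 (Finset.mem_coe.1 hw)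
        obtain ⟨_, hw3⟩ := Finset.mem_filter.1 hw1
        have hw4 := (tag2_mem_off2 B z d w).1 hw2
        exact Finset.mem_coe.2 (Finset.mem_filter.2
          ⟨Fintype.mem_piFinset.2 fun i => Finset.mem_filter.2 (hw4.2 i), hw3⟩)
      · intro w hw w' hw' heq
        have hw2 := (tag2_mem_off2 B z d w).1 (Finset.mem_inter.1 (Finset.mem_coe.1 hw)).2
        have hw2' := (tag2_mem_off2 B z d w').1 (Finset.mem_inter.1 (Finset.mem_coe.1 hw')).2
        funext o
        cases o with
        | none => rw [hw2.1, hw2'.1]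
        | some i => exact congrFun heq i
    exact_mod_cast this
  · have hcard : (On2 B z d L \ (SS2 B z d L).filter (fun w => nV w < m)).card ≤
        L * ((Fintype.piFinset fun _ : Fin d => B.filter (fun Z => z ∈ Z)).filter
          (fun w => m ≤ (Finset.univ.filter (fun i => w i ∈ V)).card)).card := by
      set Q := (Fintype.piFinset fun _ : Fin d => B.filter (fun Z => z ∈ Z)).filter
          (fun w => m ≤ (Finset.univ.filter (fun i => w i ∈ V)).card) with hQ
      have hle : (On2 B z d L \ (SS2 B z d L).filter (fun w => nV w < m)).card ≤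
          ((chain L) ×ˢ Q).card := by
        apply Finset.card_le_card_of_injOn (fun w => (w none, fun i => w (some i)))
        · intro w hw
          obtain ⟨hw1, hw2⟩ := Finset.mem_sdiff.1 (Finset.mem_coe.1 hw)
          have hw4 := (tag2_mem_on2 B z d L w).1 hw1
          refine Finset.mem_coe.2 (Finset.mem_product.2 ⟨hw4.1, Finset.mem_filter.2
            ⟨Fintype.mem_piFinset.2 fun i => Finset.mem_filter.2 (hw4.2 i), ?_⟩⟩)
          by_contra hlt'
          exact hw2 (Finset.mem_filter.2 ⟨Finset.mem_union_left _ hw1, not_le.1 hlt'⟩)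
        · intro w _ w' _ heq
          have e1 := congrArg Prod.fst heq
          have e2 := congrArg Prod.snd heq
          funext o
          cases o with
          | none => exact e1
          | some i => exact congrFun e2 i
      refine hle.trans ?_
      rw [Finset.card_product]
      exact Nat.mul_le_mul_right _ (tag2_card_chain_le L)
    have h3 : ((On2 B z d L \ (SS2 B z d L).filter (fun w => nV w < m)).card : ℝ) ≤
        L * (((Fintype.piFinset fun _ : Fin d => B.filter (fun Z => z ∈ Z)).filter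
          (fun w => m ≤ (Finset.univ.filter (fun i => w i ∈ V)).card)).card : ℝ) := by
      exact_mod_cast hcard
    refine h3.trans ?_
    calc (L : ℝ) * (((Fintype.piFinset fun _ : Fin d => B.filter (fun Z => z ∈ Z)).filter
          (fun w => m ≤ (Finset.univ.filter (fun i => w i ∈ V)).card)).card : ℝ)
        ≤ L * (r ^ d * (M1 : ℝ) ^ d) := mul_le_mul_of_nonneg_left A1 (Nat.cast_nonneg L)
      _ = r ^ d * (L * (M1 : ℝ) ^ d) := by ring

end Pool.Agent.H4.FQ
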