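import Pool.Agent.H4.FQ.Frk2
import Pool.Agent.H4.FQ.EC
import Pool.Agent.H4.FQ.TAG2
import Pool.Agent.H4.FQ.NUM
import Pool.Agent.H4.FQ.ASY2

/-!
Module ND2: assembly of part (1) for ratio < 1/2.
-/

set_option autoImplicit false

namespace Pool.Agent.H4.FQ

open Pool.Agent.H4.FP

theorem sum_wt {Ω : Type} (F : Finset Ω) (P : Ω → Prop) [DecidablePred P] (n m : ℝ) :
    ∑ W ∈ F, ((if P W then n else 0) - m) = n * ((F.filter P).card : ℝ) - m * F.card := by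
  rw [Finset.sum_sub_distrib, ← Finset.sum_filter]
  simp [mul_comm]

theorem good_lt (B : Finset (Finset ℕ)) (hB : UC B) (z M1 M0 : ℕ) (hM1 : 0 < M1) (hM : M1 < M0)
    (h1 : (B.filter (fun Z => z ∈ Z)).card = M1) (h0 : (B.filter (fun Z => z ∉ Z)).card = M0)
    (hF : FranklAt M1 (M1 + M0)) (hf : ∀ x, freq B x ≤ M1) (hemp : ∅ ∈ B)
    (V : Finset (Finset ℕ)) (hVB : V ⊆ B) (hV : ∀ X ∈ V, ∀ Y ∈ B, X ⊆ Y → Y ∈ V) :
    (V.filter (fun Z => z ∉ Z)).card * M1 ≤ (V.filter (fun Z => z ∈ Z)).card * M0 := by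
  classical
  by_contra hcon
  push Not at hcon
  have hM0 : 0 < M0 := by omega
  obtain ⟨r, hr0, hr1, htag⟩ := exists_tag2 B z M1 M0 hM1 hM0 h1 h0 V hVB hV hcon
  obtain ⟨ℓ, κ, hl, hpar⟩ := exists_params2 M1 M0 hM1 hM r hr0 hr1
  obtain ⟨d, hd⟩ : ∃ d, d = 1 + κ * M0 := ⟨_, rfl⟩
  obtain ⟨Q, hQ⟩ : ∃ Q, Q = 3 * ℓ * (M1 + M0) * (d + κ) := ⟨_, rfl⟩
  obtain ⟨hq1, hq2, hq3, hq4, hq5, hq6⟩ := hpar d Q hd hQ
  have hd0 : 0 < d := by omega
  obtain ⟨L, hL⟩ : ∃ L, L = M0 ^ (d - 1) / M1 ^ (d - 1) := ⟨_, rfl⟩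
  have hLa : L * M1 ^ (d - 1) ≤ M0 ^ (d - 1) := by rw [hL]; exact Nat.div_mul_le_self _ _
  have hM1p : 0 < M1 ^ (d - 1) := by positivity
  have hLb : M0 ^ (d - 1) ≤ (L + 1) * M1 ^ (d - 1) := by
    rw [hL, mul_comm]
    exact (Nat.lt_mul_div_succ _ hM1p).le
  have hL0 : 0 < L := by
    rw [hL]
    exact Nat.div_pos (Nat.pow_le_pow_left hM.le _) hM1p
  obtain ⟨D1, hD1S, hD1d, hD1a, hD1b⟩ := htag d L hd0
  obtain ⟨N, hN⟩ : ∃ N, N = M1 + M0 := ⟨_, rfl⟩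
  haveI : NeZero N := ⟨by omega⟩
  have hcardM : Fintype.card (((Fin 3 × Fin ℓ) × ZMod N) × (Fin d ⊕ Fin κ)) = Q := by
    simp [hQ, hN, ZMod.card]
  obtain ⟨code, hcode⟩ := exists_code2 (((Fin 3 × Fin ℓ) × ZMod N) × (Fin d ⊕ Fin κ)) N ℓ
    (by omega) hl (by rw [hcardM]; exact hq1)
  -- the data
  obtain ⟨S, hSdef⟩ : ∃ S, S = SS2 B z d L := ⟨_, rfl⟩
  obtain ⟨D, hDdef⟩ : ∃ D : Bool → Finset (Option (Fin d) → Finset ℕ),
    D = fun b => if b then D1 else Off2 B z d := ⟨_, rfl⟩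
  obtain ⟨I, hIdef⟩ : ∃ I : ((Fin 3 × Fin ℓ) × ZMod N) × (Fin d ⊕ Fin κ) →
      Finset (Option (Fin d) → Finset ℕ),
    I = fun m => Sum.elim (fun i' : Fin d => (SS2 B z d L).filter (fun w => w (some i') = ∅))
      (fun _ : Fin κ => On2 B z d L) m.2 := ⟨_, rfl⟩
  have hDt : D true = D1 := by rw [hDdef]; simp
  have hDf : D false = Off2 B z d := by rw [hDdef]; simp
  have hdis := disj2 B z d L hd0
  have hOnS : On2 B z d L ⊆ S := by rw [hSdef]; exact Finset.subset_union_left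
  have hOffS : Off2 B z d ⊆ S := by rw [hSdef]; exact Finset.subset_union_right
  have hD1S' : D1 ⊆ S := by rw [hSdef]; exact hD1S
  -- real numbers
  have hM1r : (1 : ℝ) ≤ M1 := by exact_mod_cast hM1
  have hM0r : (0 : ℝ) < M0 := by exact_mod_cast hM0
  have hMr : (M1 : ℝ) < M0 := by exact_mod_cast hM
  have hNr : (N : ℝ) = M1 + M0 := by rw [hN]; push_cast; ring
  have hNpos : (0 : ℝ) < N := by rw [hNr]; positivity
  obtain ⟨q0, hq0⟩ : ∃ q0 : ℝ, q0 = (M0 : ℝ) ^ (d - 1) := ⟨_, rfl⟩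
  obtain ⟨q1, hq1'⟩ : ∃ q1 : ℝ, q1 = (M1 : ℝ) ^ (d - 1) := ⟨_, rfl⟩
  have hq0pos : 0 < q0 := by rw [hq0]; positivity
  have hq1pos : 0 < q1 := by rw [hq1']; positivity
  have hdpow0 : (M0 : ℝ) ^ d = M0 * q0 := by
    obtain ⟨e, he⟩ : ∃ e, d = e + 1 := ⟨d - 1, by omega⟩
    rw [hq0, he, Nat.add_sub_cancel]; ring
  have hdpow1 : (M1 : ℝ) ^ d = M1 * q1 := by
    obtain ⟨e, he⟩ : ∃ e, d = e + 1 := ⟨d - 1, by omega⟩
    rw [hq1', he, Nat.add_sub_cancel]; ring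
  obtain ⟨ρ, hρ⟩ : ∃ ρ : ℝ, ρ = q0 - L * q1 := ⟨_, rfl⟩
  have hρ0 : 0 ≤ ρ := by
    have : (L : ℝ) * q1 ≤ q0 := by rw [hq0, hq1']; exact_mod_cast hLa
    rw [hρ]; linarith
  have hρ1 : ρ ≤ q1 := by
    have : q0 ≤ ((L : ℝ) + 1) * q1 := by rw [hq0, hq1']; exact_mod_cast hLb
    rw [hρ]; linarith
  have hρ2 : ρ ≤ q0 := by
    have : 0 ≤ (L : ℝ) * q1 := by positivity
    rw [hρ]; linarith
  have hu : q1 / q0 = ((M1 : ℝ) / M0) ^ (d - 1) := by rw [hq0, hq1', div_pow]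
  have hu2 : q1 / q0 ≤ 1 / 2 := by rw [hu]; exact hq3
  have hupos : 0 < q1 / q0 := by positivity
  obtain ⟨On, hOn⟩ : ∃ On : ℝ, On = M1 * (q0 - ρ) := ⟨_, rfl⟩
  have hOncard : ((On2 B z d L).card : ℝ) = On := by
    rw [card_on2, h1, hOn, hρ]; push_cast; rw [hdpow1]; ring
  have hOn' : (L : ℝ) * (M1 : ℝ) ^ d = On := by
    rw [← hOncard, card_on2, h1]; push_cast; ring
  have hOnpos : 0 < On := by
    rw [← hOn']; positivity
  have hOffcard : ((Off2 B z d).card : ℝ) = M0 * q0 := by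
    rw [card_off2, h0]; push_cast; rw [hdpow0]
  obtain ⟨Sr, hSr⟩ : ∃ Sr : ℝ, Sr = M0 * q0 + On := ⟨_, rfl⟩
  have hScard : (S.card : ℝ) = Sr := by
    rw [hSdef, SS2, Finset.card_union_of_disjoint hdis]
    push_cast
    rw [hOncard, hOffcard, hSr]; ring
  have hSrpos : 0 < Sr := by rw [hSr]; positivity
  have hrd0 : 0 < r ^ d := by positivity
  obtain ⟨α, hα⟩ : ∃ α : ℝ, α = ((D1 ∩ Off2 B z d).card : ℝ) := ⟨_, rfl⟩
  obtain ⟨β, hβ⟩ : ∃ β : ℝ, β = ((On2 B z d L \ D1).card : ℝ) := ⟨_, rfl⟩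
  have hα0 : 0 ≤ α := by rw [hα]; positivity
  have hβ0 : 0 ≤ β := by rw [hβ]; positivity
  have hα1 : α ≤ r ^ d * (M0 * q0) := by rw [hα, ← hdpow0]; exact hD1a
  have hβ1 : β ≤ r ^ d * On := by rw [hβ, ← hOn']; exact hD1b
  -- splitting of D1
  have hsplit : ∀ f : (Option (Fin d) → Finset ℕ) → ℝ, ∑ w ∈ D1, f w
      = ∑ w ∈ On2 B z d L, f w + (∑ w ∈ D1 ∩ Off2 B z d, f w
          - ∑ w ∈ On2 B z d L \ D1, f w) := by
    intro f
    have a1 : D1 = (D1 ∩ Off2 B z d) ∪ (On2 B z d L ∩ D1) := by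
      ext w
      simp only [Finset.mem_union, Finset.mem_inter]
      constructor
      · intro hw
        have := hD1S hw
        rw [SS2, Finset.mem_union] at this
        tauto
      · tauto
    have a2 : Disjoint (D1 ∩ Off2 B z d) (On2 B z d L ∩ D1) := by
      rw [Finset.disjoint_left]
      intro w hw1 hw2
      rw [Finset.mem_inter] at hw1 hw2
      exact Finset.disjoint_left.mp hdis hw2.1 hw1.2
    have a3 : ∑ w ∈ D1, f w = ∑ w ∈ D1 ∩ Off2 B z d, f w + ∑ w ∈ On2 B z d L ∩ D1, f w := by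
      conv_lhs => rw [a1]
      exact Finset.sum_union a2
    have a4 := Finset.sum_inter_add_sum_sdiff (On2 B z d L) D1 f
    linarith
  have hD1card : ((D1).card : ℝ) = On + α - β := by
    have := hsplit (fun _ => 1)
    simp only [Finset.sum_const, nsmul_eq_mul, mul_one] at this
    rw [this, hOncard, ← hα, ← hβ]; ring
  have hD1pos : 0 < ((D1).card : ℝ) := by
    rw [hD1card]
    have h6 : r ^ d * On ≤ (1 / 8) * On := mul_le_mul_of_nonneg_right hq2 hOnpos.le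
    linarith
  have hs : Setup2 N M1 M0 ℓ S D
      (Prod.fst : ((Fin 3 × Fin ℓ) × ZMod N) × (Fin d ⊕ Fin κ) → (Fin 3 × Fin ℓ) × ZMod N)
      I code := by
    refine ⟨hN, hM1, hM0, hl, ?_, ?_, ?_, ?_, hcode⟩
    · have : (0 : ℝ) < S.card := by rw [hScard]; exact hSrpos
      exact_mod_cast this
    · intro b
      cases b
      · rw [hDf]; exact hOffS
      · rw [hDt]; exact hD1S'
    · intro b
      cases b
      · rw [hDf, card_off2, h0]; positivity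
      · rw [hDt]; exact_mod_cast hD1pos
    · intro m
      rcases m with ⟨k, i' | c⟩
      · intro w hw
        simp only [hIdef, Sum.elim_inl, Finset.mem_filter] at hw
        rw [hSdef]; exact hw.1
      · simpa [hIdef] using hOnS
  -- theta and phi
  have htheta := num_theta M1 M0 q0 q1 ρ On Sr ((D1).card) α β (r ^ d) hM1r hMr hq0pos hq1pos.le
    hρ0 hρ1 hu2 hOn hSr hrd0.le hq2 hα0 hα1 hβ0 hβ1 hD1card
  have hth1 : theta S D true = (D1.card : ℝ) / Sr := by rw [theta, hDt, hScard]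
  have hth0 : theta S D false = (M0 * q0) / Sr := by rw [theta, hDf, hScard, hOffcard]
  have hth1' : theta S D true ≤ 1 := by
    rw [theta]
    apply div_le_one_of_le₀ _ (Nat.cast_nonneg _)
    exact_mod_cast Finset.card_le_card (hs.subD true)
  have hth0' : theta S D false ≤ 1 := by
    rw [theta]
    apply div_le_one_of_le₀ _ (Nat.cast_nonneg _)
    exact_mod_cast Finset.card_le_card (hs.subD false)
  have hphi := num_phi M1 M0 (theta S D true) (theta S D false) hM1 hM0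
    (by rw [hth1]; exact htheta.1) (by rw [hth0]; exact htheta.2.1) hth1' hth0'
    (by rw [hth1, hth0]; exact htheta.2.2)
  have hphi0 : 0 ≤ phi M1 M0 S D := by
    refine le_trans ?_ hphi.1
    positivity
  have h5 : 2 * N * (Fintype.card (((Fin 3 × Fin ℓ) × ZMod N) × (Fin d ⊕ Fin κ)) : ℝ)
      * phi M1 M0 S D ^ (3 * ℓ - 1) ≤ 1 := by
    rw [hcardM, hNr]
    refine le_trans ?_ hq5
    have : phi M1 M0 S D ^ (3 * ℓ - 1) ≤ (1 / 3 : ℝ) ^ (3 * ℓ - 1) :=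
      pow_le_pow_left₀ hphi0 hphi.2 _
    exact mul_le_mul_of_nonneg_left this (by positivity)
  set F := fam2 S (TT N M1 ℓ S D
      (Prod.fst : ((Fin 3 × Fin ℓ) × ZMod N) × (Fin d ⊕ Fin κ) → (Fin 3 × Fin ℓ) × ZMod N) code)
      (fun a : (((Fin 3 × Fin ℓ) × ZMod N) × (Fin d ⊕ Fin κ)) × ZMod N => a.1.1)
      (fun a => I a.1) with hFdef
  have hDdown : ∀ b, ∀ u ∈ S, ∀ v ∈ S, (fun i => u i ∪ v i) ∈ D b → u ∈ D b ∧ v ∈ D b := by
    intro b u hu v hv huv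
    rw [hSdef] at hu hv
    cases b
    · rw [hDf] at huv ⊢
      exact ⟨off2_down B z d L hd0 _ huv u hu (fun i => Finset.subset_union_left),
        off2_down B z d L hd0 _ huv v hv (fun i => Finset.subset_union_right)⟩
    · rw [hDt] at huv ⊢
      exact ⟨hD1d _ huv u hu (fun i => Finset.subset_union_left),
        hD1d _ huv v hv (fun i => Finset.subset_union_right)⟩
  have hcl : ∀ u ∈ F, ∀ v ∈ F, (fun k i => u k i ∪ v k i) ∈ F := by
    refine fam2_op (fun (u v : Option (Fin d) → Finset ℕ) (i : Option (Fin d)) => u i ∪ v i)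
      ?_ ?_ ?_
    · rw [hSdef]; exact ss2_sup B hB z d L hL0
    · intro a j u hu v hv huv
      unfold TT at huv ⊢
      split_ifs at huv ⊢ with hj
      · exact ⟨hu, hv⟩
      · exact hDdown _ u hu v hv huv
    · intro a u hu v hv
      rcases a with ⟨⟨k, i' | c⟩, s⟩
      · simp only [hIdef, Sum.elim_inl, Finset.mem_filter] at hu hv ⊢
        refine ⟨ss2_sup B hB z d L hL0 u hu.1 v hv.1, ?_⟩
        rw [hu.2, hv.2]; rfl
      · simp only [hIdef, Sum.elim_inr] at hu hv ⊢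
        exact on2_sup B hB z d L u hu v hv
  have hFcard : 2 ≤ F.card := by
    refine engine2_card hs ?_ h5
    have e1 : 1 ≤ (On2 B z d L).card := by
      rw [card_on2, h1]
      have : 0 < L * M1 ^ d := by positivity
      omega
    have e2 : 1 ≤ (Off2 B z d).card := by
      rw [card_off2, h0]
      have : 0 < M0 ^ d := by positivity
      omega
    rw [hSdef, SS2, Finset.card_union_of_disjoint hdis]
    omega
  rw [← hN] at hF
  obtain ⟨k, o, x, -, hle⟩ := frankl_pi_at hF F hcl hFcard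
  have hsum : 0 ≤ ∑ W ∈ F, wt N M1 o x (W k) := by
    have := sum_wt F (fun W => x ∈ W k o) (N : ℝ) (M1 : ℝ)
    unfold wt
    rw [this]
    have h3 : (M1 : ℝ) * F.card ≤ (N : ℝ) * ((F.filter (fun W => x ∈ W k o)).card : ℝ) := by
      exact_mod_cast hle
    linarith
  -- the engine
  obtain ⟨A0, A1, hA0, hA1, hA, hoff, hon⟩ := sums B z d L M1 M0 hd0 hL0 hM1 hM0 h1 h0 hf o x
  have hcen := central2 B z d L M1 M0 κ hd hL0 hM1 hM0 h1 h0 hf hemp hLa hLb o x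
  rw [← hN] at hA0 hA1 hoff hon hcen
  rw [hNr] at hA1
  have hoff' : ∑ w ∈ Off2 B z d, wt N M1 o x w = M0 * q0 * A0 := by rw [hoff, hdpow0]
  have hon' : ∑ w ∈ On2 B z d L, wt N M1 o x w = On * A1 := by rw [hon, hOn']
  have habs : ∀ w : Option (Fin d) → Finset ℕ, |wt N M1 o x w| ≤ N :=
    fun w => wt_abs N M1 d (by omega) o x w
  obtain ⟨δ, hδ⟩ : ∃ δ : ℝ, δ = ∑ w ∈ D1 ∩ Off2 B z d, wt N M1 o x w
          - ∑ w ∈ On2 B z d L \ D1, wt N M1 o x w := ⟨_, rfl⟩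
  have hSD : ∑ w ∈ D1, wt N M1 o x w = On * A1 + δ := by
    rw [hsplit, hon', hδ]
  have habsE : ∀ E : Finset (Option (Fin d) → Finset ℕ),
      |∑ w ∈ E, wt N M1 o x w| ≤ N * E.card := by
    intro E
    calc |∑ w ∈ E, wt N M1 o x w| ≤ ∑ w ∈ E, |wt N M1 o x w| := Finset.abs_sum_le_sum_abs _ _
      _ ≤ ∑ w ∈ E, (N : ℝ) := Finset.sum_le_sum (fun w _ => habs w)
      _ = N * E.card := by simp [mul_comm]
  have hδ1 : |δ| ≤ (M1 + M0) * (α + β) := by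
    rw [hδ, ← hNr, hα, hβ, mul_add]
    exact (abs_sub _ _).trans (add_le_add (habsE _) (habsE _))
  have e1 : (∑ w ∈ S, wt N M1 o x w) / S.card
      ≤ -(-(M0 * A0 + M1 * A1)) / N
        + (8 * (M1 + M0) ^ 2 * r ^ d + (M1 + M0) * (q1 / q0)) := by
    have e0 : ∑ w ∈ S, wt N M1 o x w = M0 * q0 * A0 + On * A1 := by
      rw [hSdef, SS2, Finset.sum_union hdis, hoff', hon']; ring
    rw [e0, hScard, hNr]
    have := num_a M1 M0 q0 q1 ρ A0 A1 On Sr hM1r hMr hq0pos hq1pos.le hρ0 hρ1 hρ2 hOn hSr hA1 hA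
    have h8 : 0 ≤ 8 * ((M1 : ℝ) + M0) ^ 2 * r ^ d := by positivity
    linarith
  have e2 : -(-(M0 * A0 + M1 * A1)) - (8 * (M1 + M0) ^ 2 * r ^ d + (M1 + M0) * (q1 / q0))
      ≤ M1 * ((∑ w ∈ D true, wt N M1 o x w) / (D true).card)
        + M0 * ((∑ w ∈ D false, wt N M1 o x w) / (D false).card) := by
    have := num_b M1 M0 q0 q1 ρ A0 A1 On Sr (D1.card) (∑ w ∈ D1, wt N M1 o x w) α β δ (r ^ d)
      hM1r hMr hq0pos hq1pos.le hρ0 hρ1 hu2 hOn hSr hA1 hrd0.le hq2 hα0 hα1 hβ0 hβ1 hD1card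
      hSD hδ1
    have e3 : (∑ w ∈ D false, wt N M1 o x w) / ((D false).card : ℝ) = A0 := by
      rw [hDf, hoff', hOffcard]
      field_simp
    rw [e3, hDt]
    have h8 : 0 ≤ ((M1 : ℝ) + M0) * (q1 / q0) := by positivity
    linarith
  have e3 : (∑ m ∈ Finset.univ.filter
        (fun m : ((Fin 3 × Fin ℓ) × ZMod N) × (Fin d ⊕ Fin κ) => m.1 = k),
        ∑ w ∈ I m, wt N M1 o x w) / S.card ≤ -(1 / (2 * (M1 + M0))) := by
    have hIsum : ∑ m ∈ Finset.univ.filter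
          (fun m : ((Fin 3 × Fin ℓ) × ZMod N) × (Fin d ⊕ Fin κ) => m.1 = k),
            ∑ w ∈ I m, wt N M1 o x w
        = ∑ i' : Fin d, ∑ w ∈ (SS2 B z d L).filter (fun w => w (some i') = ∅), wt N M1 o x w
          + (κ : ℝ) * ∑ w ∈ On2 B z d L, wt N M1 o x w := by
      rw [Finset.sum_filter, Fintype.sum_prod_type]
      have hone : ∀ k' : (Fin 3 × Fin ℓ) × ZMod N, (∑ y : Fin d ⊕ Fin κ,
          if (k', y).1 = k then ∑ w ∈ I (k', y), wt N M1 o x w else 0)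
          = if k' = k then ∑ y : Fin d ⊕ Fin κ, ∑ w ∈ I (k', y), wt N M1 o x w else 0 := by
        intro k'
        by_cases hk : k' = k
        · simp [hk]
        · simp [hk]
      rw [Finset.sum_congr rfl (fun k' _ => hone k'), Finset.sum_ite_eq' Finset.univ k]
      simp only [Finset.mem_univ, if_true, Fintype.sum_sum_type]
      simp [hIdef]
    rw [hIsum, hScard]
    have hb : ∑ i' : Fin d, ∑ w ∈ (SS2 B z d L).filter (fun w => w (some i') = ∅),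
          wt N M1 o x w + (κ : ℝ) * ∑ w ∈ On2 B z d L, wt N M1 o x w
        ≤ - (q0 / 2) := by
      refine hcen.trans ?_
      rw [← hq0, hdpow1, hNr]
      have h6 : 2 * (κ : ℝ) * ((M1 : ℝ) + M0) * q1 ≤ q0 := by
        have : 2 * (κ : ℝ) * ((M1 : ℝ) + M0) * (q1 / q0) ≤ 1 := by rw [hu]; exact hq4
        have h7 : 2 * (κ : ℝ) * ((M1 : ℝ) + M0) * (q1 / q0) * q0 ≤ 1 * q0 :=
          mul_le_mul_of_nonneg_right this hq0pos.le
        have h8 : 2 * (κ : ℝ) * ((M1 : ℝ) + M0) * (q1 / q0) * q0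
            = 2 * (κ : ℝ) * ((M1 : ℝ) + M0) * q1 := by field_simp
        linarith
      have h9 : (κ : ℝ) * ((M1 : ℝ) + M0) * ((M1 : ℝ) * q1) ≤ M1 * (q0 / 2) := by
        have : (κ : ℝ) * ((M1 : ℝ) + M0) * q1 ≤ q0 / 2 := by linarith
        calc (κ : ℝ) * ((M1 : ℝ) + M0) * ((M1 : ℝ) * q1)
            = M1 * ((κ : ℝ) * ((M1 : ℝ) + M0) * q1) := by ring
          _ ≤ M1 * (q0 / 2) := mul_le_mul_of_nonneg_left this (by linarith)
      have h10 : q0 / 2 ≤ M1 * (q0 / 2) := le_mul_of_one_le_left (by linarith) hM1r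
      have h11 : -(M1 : ℝ) * q0 = -(M1 * (q0 / 2)) - M1 * (q0 / 2) := by ring
      rw [h11]
      linarith
    rw [div_le_iff₀ hSrpos]
    refine hb.trans ?_
    have hS2 : Sr ≤ (M1 + M0) * q0 := by
      have h12 : 0 ≤ (M1 : ℝ) * ρ := mul_nonneg (by linarith) hρ0
      have h13 : Sr = (M1 + M0) * q0 - M1 * ρ := by rw [hSr, hOn]; ring
      rw [h13]; linarith
    rw [neg_mul, neg_le_neg_iff, div_mul_eq_mul_div, div_le_iff₀ (by positivity)]
    have h14 : q0 / 2 * (2 * ((M1 : ℝ) + M0)) = (M1 + M0) * q0 := by ring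
    rw [h14, one_mul]
    exact hS2
  have e4 : ((D true ∩ D false).card : ℝ) / S.card ≤ r ^ d := by
    rw [hDt, hDf, ← hα, hScard, div_le_iff₀ hSrpos]
    refine hα1.trans ?_
    rw [hSr]
    exact mul_le_mul_of_nonneg_left (by linarith) hrd0.le
  have hε : 0 ≤ 8 * ((M1 : ℝ) + M0) ^ 2 * r ^ d + (M1 + M0) * (q1 / q0) := by positivity
  have hfin := engine2 hs (fun w => wt N M1 o x w) habs k (-(M0 * A0 + M1 * A1))
    (8 * ((M1 : ℝ) + M0) ^ 2 * r ^ d + (M1 + M0) * (q1 / q0)) (1 / (2 * (M1 + M0))) (r ^ d)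
    (by linarith) hε e1 e2 e3 e4 h5
  rw [hcardM, hNr] at hfin
  have hpl : ((1 / (4 * ((M1 : ℝ) + M0))) ^ (M1 + M0)) ^ (3 * ℓ - 1)
      ≤ phi M1 M0 S D ^ (3 * ℓ - 1) := pow_le_pow_left₀ (by positivity) hphi.1 _
  have hlow : ((M1 : ℝ) + M0) * ((1 / (4 * ((M1 : ℝ) + M0))) ^ (M1 + M0)) ^ (3 * ℓ - 1)
            * (1 / (2 * ((M1 : ℝ) + M0)))
      ≤ ((M1 : ℝ) + M0) * phi M1 M0 S D ^ (3 * ℓ - 1) * (1 / (2 * ((M1 : ℝ) + M0))) := by
    apply mul_le_mul_of_nonneg_right _ (by positivity)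
    exact mul_le_mul_of_nonneg_left hpl (by positivity)
  rw [← hu] at hq6
  have hneg : (∑ W ∈ F, wt N M1 o x (W k))
      / (S.card : ℝ) ^ (Fintype.card ((Fin 3 × Fin ℓ) × ZMod N)) < 0 := by
    refine lt_of_le_of_lt hfin ?_
    linarith
  have hnn : 0 ≤ (∑ W ∈ F, wt N M1 o x (W k))
      / (S.card : ℝ) ^ (Fintype.card ((Fin 3 × Fin ℓ) × ZMod N)) := by
    exact div_nonneg hsum (pow_nonneg (Nat.cast_nonneg _) _)
  linarith

end Pool.Agent.H4.FQ
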